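import Mathlib

/-!
# Almost complex structures, symplectic forms and rational pseudoholomorphic curves

Definitions used by the hand-in for MP_039cf2_gt.  `X` is a smooth manifold (without boundary)
modelled on a real normed space `E` through `I : ModelWithCorners ℝ E H`.
-/

open scoped Manifold ContDiff Topology
open Set

noncomputable section

namespace Pool.Agent.Helper82.AC

universe u v w

variable {E : Type u} [NormedAddCommGroup E] [NormedSpace ℝ E]
  {H : Type v} [TopologicalSpace H] (I : ModelWithCorners ℝ E H)
  (X : Type w) [TopologicalSpace X] [ChartedSpace H X] [IsManifold I ∞ X]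

/-- A smooth almost complex structure on `X`: an endomorphism `J x` of every tangent space with
`J x ∘ J x = -1`, such that `(x, v) ↦ (x, J x v)` is a smooth self-map of the tangent bundle. -/
structure AlmostComplexStructure where
  /-- the endomorphism of the tangent space at a point -/
  toFun : ∀ x : X, TangentSpace I x →L[ℝ] TangentSpace I x
  /-- `J ^ 2 = -1` -/
  sq_eq_neg : ∀ (x : X) (v : TangentSpace I x), toFun x (toFun x v) = -v
  /-- `J` is smooth, as a self-map of the tangent bundle -/
  smooth : ContMDiff I.tangent I.tangent ∞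
    (fun p : TangentBundle I X => (⟨p.proj, toFun p.proj p.snd⟩ : TangentBundle I X))

/-- The expression of a field of bilinear forms `Ω` on the tangent spaces of `X` in the preferred
chart at `x₀`: the pull-back of `Ω` by the inverse of that chart. -/
def chartForm (Ω : ∀ x : X, TangentSpace I x →L[ℝ] TangentSpace I x →L[ℝ] ℝ) (x₀ : X) (y : E) :
    E →L[ℝ] E →L[ℝ] ℝ :=
  let B : E →L[ℝ] E →L[ℝ] ℝ := Ω ((extChartAt I x₀).symm y)
  let D : E →L[ℝ] E := mfderiv 𝓘(ℝ, E) I (extChartAt I x₀).symm y
  B.bilinearComp D D

/-- A symplectic form on `X`: a smooth, closed, nondegenerate, alternating 2-form.  Smoothness and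
closedness are expressed in the charts of `X`: the coordinate expression `Ω'` of the form is smooth
on the target of the chart, and there `dΩ' = 0`, that is
`∂_a Ω'(b, c) + ∂_b Ω'(c, a) + ∂_c Ω'(a, b) = 0` for all vectors `a`, `b`, `c`. -/
structure SymplecticForm where
  /-- the bilinear form on the tangent space at a point -/
  toFun : ∀ x : X, TangentSpace I x →L[ℝ] TangentSpace I x →L[ℝ] ℝ
  /-- the form is alternating -/
  alt : ∀ (x : X) (v : TangentSpace I x), toFun x v v = 0
  /-- the form is nondegenerate -/
  nondegenerate : ∀ (x : X) (v : TangentSpace I x), (∀ w, toFun x v w = 0) → v = 0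
  /-- the form is smooth -/
  smooth : ∀ x₀ : X, ContDiffOn ℝ ∞ (chartForm I X toFun x₀) (extChartAt I x₀).target
  /-- the form is closed -/
  closed : ∀ x₀ : X, ∀ y ∈ (extChartAt I x₀).target, ∀ a b c : E,
    fderiv ℝ (chartForm I X toFun x₀) y a b c + fderiv ℝ (chartForm I X toFun x₀) y b c a
      + fderiv ℝ (chartForm I X toFun x₀) y c a b = 0

variable {I X}

/-- `J` is compatible with `Ω`: `Ω(Jv, Jw) = Ω(v, w)`, and `Ω(v, Jv) > 0` for `v ≠ 0`. -/
def Compatible (Ω : SymplecticForm I X) (J : AlmostComplexStructure I X) : Prop :=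
  (∀ (x : X) (v w : TangentSpace I x), Ω.toFun x (J.toFun x v) (J.toFun x w) = Ω.toFun x v w) ∧
  ∀ (x : X) (v : TangentSpace I x), v ≠ 0 → 0 < Ω.toFun x v (J.toFun x v)

/-- A `J`-holomorphic map from the complex line to `X`: a smooth map whose differential
intertwines multiplication by `i` with `J`. -/
def IsHolomorphic (J : AlmostComplexStructure I X) (f : ℂ → X) : Prop :=
  ContMDiff 𝓘(ℝ, ℂ) I ∞ f ∧
  ∀ (z v : ℂ), mfderiv 𝓘(ℝ, ℂ) I f z (Complex.I * v : ℂ) =
    J.toFun (f z) (mfderiv 𝓘(ℝ, ℂ) I f z v)

/-- The Riemann sphere `ℙ¹ = ℂ ∪ {∞}`; its two standard charts are `z` and `1 / z`. -/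
abbrev RiemannSphere : Type := OnePoint ℂ

/-- The parametrization `w ↦ 1 / w` of the neighbourhood `ℙ¹ ∖ {0}` of `∞`. -/
def invChart (w : ℂ) : RiemannSphere := if w = 0 then OnePoint.infty else ((w⁻¹ : ℂ) : OnePoint ℂ)

/-- A `J`-holomorphic map `ℙ¹ → X`: it is `J`-holomorphic in both standard charts of `ℙ¹`. -/
def IsHolomorphicSphere (J : AlmostComplexStructure I X) (u : RiemannSphere → X) : Prop :=
  IsHolomorphic J (fun z : ℂ => u (z : OnePoint ℂ)) ∧ IsHolomorphic J (fun w : ℂ => u (invChart w))

/-- A connected nodal curve of genus `0`: finitely many copies of `ℙ¹`, indexed by `Fin (m + 1)`,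
glued along the edges of a tree.  For an edge `i — j` the point `node i j` of the `i`-th copy is
glued to the point `node j i` of the `j`-th copy; different edges at `i` use different points of
the `i`-th copy. -/
structure NodalCurve where
  /-- the number of components minus one -/
  m : ℕ
  /-- the dual graph -/
  graph : SimpleGraph (Fin (m + 1))
  /-- the dual graph is a tree -/
  isTree : graph.IsTree
  /-- the points which are glued -/
  node : Fin (m + 1) → Fin (m + 1) → RiemannSphere
  /-- the nodes on one component are distinct -/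
  node_injective : ∀ i j k, graph.Adj i j → graph.Adj i k → node i j = node i k → j = k

/-- `C` is a rational `J`-holomorphic curve: the image of a non-constant `J`-holomorphic map from a
connected nodal curve of genus `0` (given by `J`-holomorphic maps on the components, which agree at
the nodes, at least one of them non-constant). -/
def IsRationalCurve (J : AlmostComplexStructure I X) (C : Set X) : Prop :=
  ∃ (T : NodalCurve) (u : Fin (T.m + 1) → RiemannSphere → X),
    (∀ i, IsHolomorphicSphere J (u i)) ∧
    (∀ i j, T.graph.Adj i j → u i (T.node i j) = u j (T.node j i)) ∧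
    (∃ i a b, u i a ≠ u i b) ∧
    C = ⋃ i, Set.range (u i)

/-- A connected rational `J`-holomorphic curve. -/
def IsConnectedRationalCurve (J : AlmostComplexStructure I X) (C : Set X) : Prop :=
  IsRationalCurve J C ∧ IsConnected C

/-- `(X, Ω)` is uniruled: for some `Ω`-compatible `J₀` every point lies on a connected rational
`J₀`-holomorphic curve. -/
def Uniruled (Ω : SymplecticForm I X) : Prop :=
  ∃ J₀ : AlmostComplexStructure I X, Compatible Ω J₀ ∧
    ∀ x : X, ∃ C, IsConnectedRationalCurve J₀ C ∧ x ∈ C

/-- `(X, Ω)` is rationally connected: for some `Ω`-compatible `J₀` every pair of points lies on a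
common connected rational `J₀`-holomorphic curve. -/
def RationallyConnected (Ω : SymplecticForm I X) : Prop :=
  ∃ J₀ : AlmostComplexStructure I X, Compatible Ω J₀ ∧
    ∀ x y : X, ∃ C, IsConnectedRationalCurve J₀ C ∧ x ∈ C ∧ y ∈ C

end Pool.Agent.Helper82.AC
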