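import Mathlib

/-!
# Endomorphisms of the tangent bundle of an embedded manifold
-/

open scoped Manifold ContDiff Topology
open Set Bundle

noncomputable section

namespace Pool.Agent.Helper82.AC

universe u v w t

variable {E : Type u} [NormedAddCommGroup E] [NormedSpace ℝ E]
  {H : Type v} [TopologicalSpace H] {I : ModelWithCorners ℝ E H}
  {X : Type w} [TopologicalSpace X] [ChartedSpace H X] [IsManifold I ∞ X]
  {V : Type t} [NormedAddCommGroup V] [NormedSpace ℝ V]

set_option backward.isDefEq.respectTransparency false in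
/-- The endomorphism of the tangent bundle induced by a field of endomorphisms of the ambient
space is smooth. -/
theorem contMDiff_induced (emb : X → V) (rr : V → X) (hemb : ContMDiff I 𝓘(ℝ, V) ∞ emb)
    (hrr : ∀ x, ContMDiffAt 𝓘(ℝ, V) I ∞ rr (emb x)) (hid : ∀ x, rr (emb x) = x)
    (A : V → V → V) (hA : ContDiff ℝ ∞ (fun q : V × V => A q.1 q.2))
    (K : ∀ x : X, TangentSpace I x →L[ℝ] TangentSpace I x)
    (hK : ∀ (x : X) (v : TangentSpace I x), K x v =
      mfderiv 𝓘(ℝ, V) I rr (emb x) (A (emb x) (mfderiv I 𝓘(ℝ, V) emb x v))) :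
    ContMDiff I.tangent I.tangent ∞
    (fun p : TangentBundle I X => (⟨p.proj, K p.proj p.snd⟩ : TangentBundle I X)) := by
  have : IsManifold I 1 X := IsManifold.of_le (n := ∞) (by exact_mod_cast le_top)
  intro p₀
  -- the vector part of the differential of `emb`
  have h1 : ContMDiff I.tangent 𝓘(ℝ, V) ∞
      (fun p : TangentBundle I X => (mfderiv I 𝓘(ℝ, V) emb p.proj p.snd : V)) := by
    have ht : ContMDiff I.tangent 𝓘(ℝ, V).tangent ∞ (tangentMap I 𝓘(ℝ, V) emb) :=
      hemb.contMDiff_tangentMap (m := ∞) (by simp)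
    exact (contMDiff_snd_tangentBundle_modelSpace V 𝓘(ℝ, V)).comp ht
  have h0 : ContMDiff I.tangent I ∞ (fun p : TangentBundle I X => p.proj) :=
    contMDiff_proj (TangentSpace I)
  have h2 : ContMDiff I.tangent 𝓘(ℝ, V) ∞
      (fun p : TangentBundle I X => emb p.proj) := hemb.comp h0
  have h3 : ContMDiff I.tangent 𝓘(ℝ, V) ∞
      (fun p : TangentBundle I X => A (emb p.proj) (mfderiv I 𝓘(ℝ, V) emb p.proj p.snd : V)) := by
    exact hA.contMDiff.comp (h2.prodMk_space h1)
  have h4 : ContMDiffAt I.tangent 𝓘(ℝ, V).tangent ∞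
      (fun p : TangentBundle I X => (⟨emb p.proj,
        A (emb p.proj) (mfderiv I 𝓘(ℝ, V) emb p.proj p.snd : V)⟩ : TangentBundle 𝓘(ℝ, V) V)) p₀ := by
    apply Bundle.contMDiffAt_totalSpace.2
    refine ⟨h2 p₀, ?_⟩
    convert! h3 p₀ with y
    simp
  have h5 : ContMDiffAt I.tangent 𝓘(ℝ, V →L[ℝ] E) ∞ (fun p : TangentBundle I X =>
      ContinuousLinearMap.inCoordinates V (TangentSpace 𝓘(ℝ, V) (M := V)) E
      (TangentSpace I (M := X)) (emb p₀.proj) (emb p.proj) (rr (emb p₀.proj)) (rr (emb p.proj))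
      (mfderiv 𝓘(ℝ, V) I rr (emb p.proj))) p₀ := by
    have := (hrr p₀.proj).mfderiv_const (m := ∞) (by simp)
    exact ContMDiffAt.comp p₀ this (h2 p₀)
  have h6 : ContMDiffAt I.tangent I ∞ (fun p : TangentBundle I X => rr (emb p.proj)) p₀ :=
    ContMDiffAt.comp p₀ (hrr p₀.proj) (h2 p₀)
  have h7 : ContMDiffAt I.tangent I.tangent ∞ (fun p : TangentBundle I X =>
      (⟨rr (emb p.proj), mfderiv 𝓘(ℝ, V) I rr (emb p.proj)
        (A (emb p.proj) (mfderiv I 𝓘(ℝ, V) emb p.proj p.snd : V))⟩ : TangentBundle I X)) p₀ :=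
    ContMDiffAt.clm_apply_of_inCoordinates (F₁ := V) (E₁ := fun x : V => TangentSpace 𝓘(ℝ, V) x)
      (F₂ := E) (E₂ := fun x : X => TangentSpace I x) (IB₁ := 𝓘(ℝ, V)) (IB₂ := I)
      (b₁ := fun p : TangentBundle I X => emb p.proj)
      (b₂ := fun p : TangentBundle I X => rr (emb p.proj))
      (ϕ := fun p : TangentBundle I X => mfderiv 𝓘(ℝ, V) I rr (emb p.proj))
      (v := fun p : TangentBundle I X => A (emb p.proj) (mfderiv I 𝓘(ℝ, V) emb p.proj p.snd))
      h5 h4 h6
  have h8 : (fun p : TangentBundle I X => (⟨p.proj, K p.proj p.snd⟩ : TangentBundle I X)) =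
      (fun p : TangentBundle I X =>
      (⟨rr (emb p.proj), mfderiv 𝓘(ℝ, V) I rr (emb p.proj)
        (A (emb p.proj) (mfderiv I 𝓘(ℝ, V) emb p.proj p.snd : V))⟩ : TangentBundle I X)) := by
    funext p
    apply Bundle.TotalSpace.ext (hid p.proj).symm
    exact heq_of_eq (hK p.proj p.snd)
  rw [h8]
  exact h7

end Pool.Agent.Helper82.AC
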