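import Pool.Agent.Helper82.AC.Sphere
import Pool.Agent.Helper82.AC.Embed
import Pool.Agent.Helper82.AC.Defs

/-!
# A family of almost complex structures on the product of two spheres
-/

open scoped Manifold ContDiff Topology RealInnerProductSpace
open Set Metric Module

noncomputable section

namespace Pool.Agent.Helper82.AC

attribute [local instance] fact3

lemma inner3 (x v : E3) : ⟪x, v⟫ = x 0 * v 0 + x 1 * v 1 + x 2 * v 2 := by
  rw [PiLp.inner_apply, Fin.sum_univ_three]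
  simp only [RCLike.inner_apply, conj_trivial]
  ring

lemma sphere_eq (x : S2) :
    (x : E3) 0 * (x : E3) 0 + (x : E3) 1 * (x : E3) 1 + (x : E3) 2 * (x : E3) 2 = 1 := by
  rw [← inner3, real_inner_self_eq_norm_sq]
  simp

/-- The cross product. -/
def cr (x v : E3) : E3 :=
  !₂[x 1 * v 2 - x 2 * v 1, x 2 * v 0 - x 0 * v 2, x 0 * v 1 - x 1 * v 0]

/-- The tangent vector field `k - (k · x) x`. -/
def va (x : E3) : E3 := !₂[-(x 2 * x 0), -(x 2 * x 1), 1 - x 2 * x 2]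

/-- The tangent vector field `x × k`. -/
def vb (x : E3) : E3 := !₂[x 1, -x 0, 0]

/-- The scalar product of `v` with `x × k`. -/
def ell (x v : E3) : ℝ := v 0 * x 1 - v 1 * x 0

@[simp] lemma cr_zero (x v : E3) : cr x v 0 = x 1 * v 2 - x 2 * v 1 := rfl
@[simp] lemma cr_one (x v : E3) : cr x v 1 = x 2 * v 0 - x 0 * v 2 := rfl
@[simp] lemma cr_two (x v : E3) : cr x v 2 = x 0 * v 1 - x 1 * v 0 := rfl
@[simp] lemma va_zero (x : E3) : va x 0 = -(x 2 * x 0) := rfl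
@[simp] lemma va_one (x : E3) : va x 1 = -(x 2 * x 1) := rfl
@[simp] lemma va_two (x : E3) : va x 2 = 1 - x 2 * x 2 := rfl
@[simp] lemma vb_zero (x : E3) : vb x 0 = x 1 := rfl
@[simp] lemma vb_one (x : E3) : vb x 1 = -x 0 := rfl
@[simp] lemma vb_two (x : E3) : vb x 2 = 0 := rfl

/-- The first component of the ambient endomorphism. -/
def Afst (c s₁ : E3 × E3 → ℝ) (p v : E3 × E3) : E3 :=
  c p • cr p.1 v.1 + s₁ p • (-(v.2 2) • va p.1 + ell p.2 v.2 • vb p.1)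

/-- The second component of the ambient endomorphism. -/
def Asnd (c s₂ : E3 × E3 → ℝ) (p v : E3 × E3) : E3 :=
  c p • cr p.2 v.2 + s₂ p • ((v.1 2) • va p.2 - ell p.1 v.1 • vb p.2)

/-- The ambient endomorphism. -/
def Aamb (c s₁ s₂ : E3 × E3 → ℝ) (p v : E3 × E3) : E3 × E3 := (Afst c s₁ p v, Asnd c s₂ p v)

section

variable (c s₁ s₂ : E3 × E3 → ℝ)

lemma Afst_zero (p v : E3 × E3) : Afst c s₁ p v 0 = c p * (p.1 1 * v.1 2 - p.1 2 * v.1 1)
    + s₁ p * (v.2 2 * (p.1 2 * p.1 0) + ell p.2 v.2 * p.1 1) := by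
  simp [Afst]
  ring
lemma Afst_one (p v : E3 × E3) : Afst c s₁ p v 1 = c p * (p.1 2 * v.1 0 - p.1 0 * v.1 2)
    + s₁ p * (v.2 2 * (p.1 2 * p.1 1) - ell p.2 v.2 * p.1 0) := by
  simp [Afst]
  ring
lemma Afst_two (p v : E3 × E3) : Afst c s₁ p v 2 = c p * (p.1 0 * v.1 1 - p.1 1 * v.1 0)
    - s₁ p * (v.2 2 * (1 - p.1 2 * p.1 2)) := by
  simp [Afst]
  ring
lemma Asnd_zero (p v : E3 × E3) : Asnd c s₂ p v 0 = c p * (p.2 1 * v.2 2 - p.2 2 * v.2 1)
    - s₂ p * (v.1 2 * (p.2 2 * p.2 0) + ell p.1 v.1 * p.2 1) := by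
  simp [Asnd]
  ring
lemma Asnd_one (p v : E3 × E3) : Asnd c s₂ p v 1 = c p * (p.2 2 * v.2 0 - p.2 0 * v.2 2)
    - s₂ p * (v.1 2 * (p.2 2 * p.2 1) - ell p.1 v.1 * p.2 0) := by
  simp [Asnd]
  ring
lemma Asnd_two (p v : E3 × E3) : Asnd c s₂ p v 2 = c p * (p.2 0 * v.2 1 - p.2 1 * v.2 0)
    + s₂ p * (v.1 2 * (1 - p.2 2 * p.2 2)) := by
  simp [Asnd]

lemma ell_def (x v : E3) : ell x v = v 0 * x 1 - v 1 * x 0 := rfl

/-- The ambient endomorphism as a continuous linear map. -/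
def AL (p : E3 × E3) : E3 × E3 →L[ℝ] E3 × E3 :=
  LinearMap.toContinuousLinearMap
    { toFun := Aamb c s₁ s₂ p
      map_add' := by
        intro v w
        apply Prod.ext <;> ext i <;> fin_cases i <;>
          simp [Aamb, Afst_zero, Afst_one, Afst_two, Asnd_zero, Asnd_one, Asnd_two, ell_def] <;> ring
      map_smul' := by
        intro r v
        apply Prod.ext <;> ext i <;> fin_cases i <;>
          simp [Aamb, Afst_zero, Afst_one, Afst_two, Asnd_zero, Asnd_one, Asnd_two, ell_def] <;> ring }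

lemma AL_apply (p v : E3 × E3) : AL c s₁ s₂ p v = Aamb c s₁ s₂ p v := rfl

/-- The ambient endomorphism preserves the tangent spaces. -/
lemma Aamb_tangent_fst (x y : S2) (v : E3 × E3) :
    ⟪(x : E3), (Aamb c s₁ s₂ ((x : E3), (y : E3)) v).1⟫ = 0 := by
  have hx := sphere_eq x
  rw [inner3]
  simp only [Aamb, Afst_zero, Afst_one, Afst_two, ell_def]
  linear_combination (s₁ ((x : E3), (y : E3)) * v.2 2 * (x : E3) 2) * hx

lemma Aamb_tangent_snd (x y : S2) (v : E3 × E3) :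
    ⟪(y : E3), (Aamb c s₁ s₂ ((x : E3), (y : E3)) v).2⟫ = 0 := by
  have hy := sphere_eq y
  rw [inner3]
  simp only [Aamb, Asnd_zero, Asnd_one, Asnd_two, ell_def]
  linear_combination (-s₂ ((x : E3), (y : E3)) * v.1 2 * (y : E3) 2) * hy

/-- The ambient endomorphism squares to `-1` on the tangent spaces. -/
lemma Aamb_sq (x y : S2) (v w : E3) (hv : ⟪(x : E3), v⟫ = 0) (hw : ⟪(y : E3), w⟫ = 0)
    (hs : c ((x : E3), (y : E3)) * c ((x : E3), (y : E3)) + s₁ ((x : E3), (y : E3)) *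
      s₂ ((x : E3), (y : E3)) *
        ((1 - (x : E3) 2 * (x : E3) 2) * (1 - (y : E3) 2 * (y : E3) 2)) = 1) :
    Aamb c s₁ s₂ ((x : E3), (y : E3)) (Aamb c s₁ s₂ ((x : E3), (y : E3)) (v, w)) = -(v, w) := by
  have hx := sphere_eq x
  have hy := sphere_eq y
  rw [inner3] at hv hw
  apply Prod.ext
  · ext i
    fin_cases i
    · change Afst c s₁ _ _ 0 = -(v 0)
      simp only [Aamb, Afst_zero, Afst_one, Afst_two, Asnd_zero, Asnd_one, Asnd_two, ell_def]
      generalize c ((x : E3), (y : E3)) = C at hs ⊢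
      generalize s₁ ((x : E3), (y : E3)) = S₁ at hs ⊢
      generalize s₂ ((x : E3), (y : E3)) = S₂ at hs ⊢
      linear_combination (C * C) * ((x : E3) 0 * hv - v 0 * hx) - v 0 * hs
        + C * S₁ * (x : E3) 1 * (w 2 * hy - (y : E3) 2 * hw)
        + S₁ * S₂ * ((1 - (y : E3) 2 * (y : E3) 2) * ((x : E3) 0 * hv - v 0 * hx)
          - (x : E3) 1 * (v 0 * (x : E3) 1 - v 1 * (x : E3) 0) * hy)
    · change Afst c s₁ _ _ 1 = -(v 1)
      simp only [Aamb, Afst_zero, Afst_one, Afst_two, Asnd_zero, Asnd_one, Asnd_two, ell_def]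
      generalize c ((x : E3), (y : E3)) = C at hs ⊢
      generalize s₁ ((x : E3), (y : E3)) = S₁ at hs ⊢
      generalize s₂ ((x : E3), (y : E3)) = S₂ at hs ⊢
      linear_combination (C * C) * ((x : E3) 1 * hv - v 1 * hx) - v 1 * hs
        - C * S₁ * (x : E3) 0 * (w 2 * hy - (y : E3) 2 * hw)
        + S₁ * S₂ * ((1 - (y : E3) 2 * (y : E3) 2) * ((x : E3) 1 * hv - v 1 * hx)
          + (x : E3) 0 * (v 0 * (x : E3) 1 - v 1 * (x : E3) 0) * hy)
    · change Afst c s₁ _ _ 2 = -(v 2)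
      simp only [Aamb, Afst_zero, Afst_one, Afst_two, Asnd_zero, Asnd_one, Asnd_two, ell_def]
      generalize c ((x : E3), (y : E3)) = C at hs ⊢
      generalize s₁ ((x : E3), (y : E3)) = S₁ at hs ⊢
      generalize s₂ ((x : E3), (y : E3)) = S₂ at hs ⊢
      linear_combination (C * C) * ((x : E3) 2 * hv - v 2 * hx) - v 2 * hs
        - C * S₁ * (w 0 * (y : E3) 1 - w 1 * (y : E3) 0) * hx
  · ext i
    fin_cases i
    · change Asnd c s₂ _ _ 0 = -(w 0)
      simp only [Aamb, Afst_zero, Afst_one, Afst_two, Asnd_zero, Asnd_one, Asnd_two, ell_def]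
      generalize c ((x : E3), (y : E3)) = C at hs ⊢
      generalize s₁ ((x : E3), (y : E3)) = S₁ at hs ⊢
      generalize s₂ ((x : E3), (y : E3)) = S₂ at hs ⊢
      linear_combination (C * C) * ((y : E3) 0 * hw - w 0 * hy) - w 0 * hs
        - C * S₂ * (y : E3) 1 * (v 2 * hx - (x : E3) 2 * hv)
        + S₁ * S₂ * ((1 - (x : E3) 2 * (x : E3) 2) * ((y : E3) 0 * hw - w 0 * hy)
          - (y : E3) 1 * (w 0 * (y : E3) 1 - w 1 * (y : E3) 0) * hx)
    · change Asnd c s₂ _ _ 1 = -(w 1)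
      simp only [Aamb, Afst_zero, Afst_one, Afst_two, Asnd_zero, Asnd_one, Asnd_two, ell_def]
      generalize c ((x : E3), (y : E3)) = C at hs ⊢
      generalize s₁ ((x : E3), (y : E3)) = S₁ at hs ⊢
      generalize s₂ ((x : E3), (y : E3)) = S₂ at hs ⊢
      linear_combination (C * C) * ((y : E3) 1 * hw - w 1 * hy) - w 1 * hs
        + C * S₂ * (y : E3) 0 * (v 2 * hx - (x : E3) 2 * hv)
        + S₁ * S₂ * ((1 - (x : E3) 2 * (x : E3) 2) * ((y : E3) 1 * hw - w 1 * hy)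
          + (y : E3) 0 * (w 0 * (y : E3) 1 - w 1 * (y : E3) 0) * hx)
    · change Asnd c s₂ _ _ 2 = -(w 2)
      simp only [Aamb, Afst_zero, Afst_one, Afst_two, Asnd_zero, Asnd_one, Asnd_two, ell_def]
      generalize c ((x : E3), (y : E3)) = C at hs ⊢
      generalize s₁ ((x : E3), (y : E3)) = S₁ at hs ⊢
      generalize s₂ ((x : E3), (y : E3)) = S₂ at hs ⊢
      linear_combination (C * C) * ((y : E3) 2 * hw - w 2 * hy) - w 2 * hs
        + C * S₂ * (v 0 * (x : E3) 1 - v 1 * (x : E3) 0) * hy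

lemma contDiff_coord (i : Fin 3) : ContDiff ℝ ∞ (fun x : E3 => x i) :=
  (EuclideanSpace.proj (𝕜 := ℝ) i).contDiff

variable {c s₁ s₂}

lemma contDiff_Aamb (hc : ContDiff ℝ ∞ c) (h₁ : ContDiff ℝ ∞ s₁) (h₂ : ContDiff ℝ ∞ s₂) :
    ContDiff ℝ ∞ (fun q : (E3 × E3) × (E3 × E3) => Aamb c s₁ s₂ q.1 q.2) := by
  have hc' : ContDiff ℝ ∞ (fun q : (E3 × E3) × (E3 × E3) => c q.1) := hc.comp contDiff_fst
  have h₁' : ContDiff ℝ ∞ (fun q : (E3 × E3) × (E3 × E3) => s₁ q.1) := h₁.comp contDiff_fst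
  have h₂' : ContDiff ℝ ∞ (fun q : (E3 × E3) × (E3 × E3) => s₂ q.1) := h₂.comp contDiff_fst
  have hx : ∀ i, ContDiff ℝ ∞ (fun q : (E3 × E3) × (E3 × E3) => q.1.1 i) := fun i =>
    (contDiff_coord i).comp (contDiff_fst.comp contDiff_fst)
  have hy : ∀ i, ContDiff ℝ ∞ (fun q : (E3 × E3) × (E3 × E3) => q.1.2 i) := fun i =>
    (contDiff_coord i).comp (contDiff_snd.comp contDiff_fst)
  have hv : ∀ i, ContDiff ℝ ∞ (fun q : (E3 × E3) × (E3 × E3) => q.2.1 i) := fun i =>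
    (contDiff_coord i).comp (contDiff_fst.comp contDiff_snd)
  have hw : ∀ i, ContDiff ℝ ∞ (fun q : (E3 × E3) × (E3 × E3) => q.2.2 i) := fun i =>
    (contDiff_coord i).comp (contDiff_snd.comp contDiff_snd)
  have hlv : ContDiff ℝ ∞ (fun q : (E3 × E3) × (E3 × E3) => ell q.1.1 q.2.1) :=
    ((hv 0).mul (hx 1)).sub ((hv 1).mul (hx 0))
  have hlw : ContDiff ℝ ∞ (fun q : (E3 × E3) × (E3 × E3) => ell q.1.2 q.2.2) :=
    ((hw 0).mul (hy 1)).sub ((hw 1).mul (hy 0))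
  have one : ContDiff ℝ ∞ (fun _ : (E3 × E3) × (E3 × E3) => (1 : ℝ)) := contDiff_const
  apply ContDiff.prodMk
  · rw [contDiff_euclidean]
    intro i
    fin_cases i
    · simp only [Fin.zero_eta, Afst_zero]
      exact (hc'.mul (((hx 1).mul (hv 2)).sub ((hx 2).mul (hv 1)))).add
        (h₁'.mul (((hw 2).mul ((hx 2).mul (hx 0))).add (hlw.mul (hx 1))))
    · simp only [Fin.mk_one, Afst_one]
      exact (hc'.mul (((hx 2).mul (hv 0)).sub ((hx 0).mul (hv 2)))).add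
        (h₁'.mul (((hw 2).mul ((hx 2).mul (hx 1))).sub (hlw.mul (hx 0))))
    · simp only [Fin.reduceFinMk, Afst_two]
      exact (hc'.mul (((hx 0).mul (hv 1)).sub ((hx 1).mul (hv 0)))).sub
        (h₁'.mul ((hw 2).mul (one.sub ((hx 2).mul (hx 2)))))
  · rw [contDiff_euclidean]
    intro i
    fin_cases i
    · simp only [Fin.zero_eta, Asnd_zero]
      exact (hc'.mul (((hy 1).mul (hw 2)).sub ((hy 2).mul (hw 1)))).sub
        (h₂'.mul (((hv 2).mul ((hy 2).mul (hy 0))).add (hlv.mul (hy 1))))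
    · simp only [Fin.mk_one, Asnd_one]
      exact (hc'.mul (((hy 2).mul (hw 0)).sub ((hy 0).mul (hw 2)))).sub
        (h₂'.mul (((hv 2).mul ((hy 2).mul (hy 1))).sub (hlv.mul (hy 0))))
    · simp only [Fin.reduceFinMk, Asnd_two]
      exact (hc'.mul (((hy 0).mul (hw 1)).sub ((hy 1).mul (hw 0)))).add
        (h₂'.mul ((hv 2).mul (one.sub ((hy 2).mul (hy 2)))))

variable (c s₁ s₂) in
/-- The condition for the ambient endomorphism to be an almost complex structure. -/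
def Unimod : Prop := ∀ x y : S2,
  c ((x : E3), (y : E3)) * c ((x : E3), (y : E3)) + s₁ ((x : E3), (y : E3)) *
      s₂ ((x : E3), (y : E3)) *
        ((1 - (x : E3) 2 * (x : E3) 2) * (1 - (y : E3) 2 * (y : E3) 2)) = 1

variable (c s₁ s₂) in
/-- The endomorphism of the tangent space of `S² × S²` given by the ambient endomorphism. -/
def Jfun (p : S2 × S2) : EuclideanSpace ℝ (Fin 2) × EuclideanSpace ℝ (Fin 2) →L[ℝ]
    EuclideanSpace ℝ (Fin 2) × EuclideanSpace ℝ (Fin 2) :=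
  (DR p).comp ((AL c s₁ s₂ (emb p)).comp (DE p))

lemma DE_Jfun (p : S2 × S2) (v : EuclideanSpace ℝ (Fin 2) × EuclideanSpace ℝ (Fin 2)) :
    DE p (Jfun c s₁ s₂ p v) = Aamb c s₁ s₂ (emb p) (DE p v) := by
  obtain ⟨a, ha⟩ := exists_Dι p.1 _ (Aamb_tangent_fst c s₁ s₂ p.1 p.2 (DE p v))
  obtain ⟨b, hb⟩ := exists_Dι p.2 _ (Aamb_tangent_snd c s₁ s₂ p.1 p.2 (DE p v))
  have h : DE p (a, b) = Aamb c s₁ s₂ (emb p) (DE p v) := by
    rw [DE_apply]
    exact Prod.ext ha hb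
  have h2 : Jfun c s₁ s₂ p v = (a, b) := by
    change DR p (Aamb c s₁ s₂ (emb p) (DE p v)) = (a, b)
    rw [← h, DR_DE]
  rw [h2, h]

lemma DE_injective (p : S2 × S2) : Function.Injective (DE p) := fun v w h => by
  rw [← DR_DE p v, h, DR_DE]

lemma Jfun_sq (hu : Unimod c s₁ s₂) (p : S2 × S2)
    (v : EuclideanSpace ℝ (Fin 2) × EuclideanSpace ℝ (Fin 2)) :
    Jfun c s₁ s₂ p (Jfun c s₁ s₂ p v) = -v := by
  apply DE_injective p
  rw [DE_Jfun, DE_Jfun, map_neg, DE_apply]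
  exact Aamb_sq c s₁ s₂ p.1 p.2 _ _ (inner_Dι _ _) (inner_Dι _ _) (hu p.1 p.2)

variable (c s₁ s₂) in
/-- The almost complex structure on `S² × S²` given by `c`, `s₁` and `s₂`. -/
def mkJ (hc : ContDiff ℝ ∞ c) (h₁ : ContDiff ℝ ∞ s₁) (h₂ : ContDiff ℝ ∞ s₂)
    (hu : Unimod c s₁ s₂) : AlmostComplexStructure IM (S2 × S2) where
  toFun p := Jfun c s₁ s₂ p
  sq_eq_neg p v := Jfun_sq hu p v
  smooth := contMDiff_induced emb rr contMDiff_emb contMDiffAt_rr rr_emb (Aamb c s₁ s₂)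
    (contDiff_Aamb hc h₁ h₂) _ (fun _ _ => rfl)

end

end Pool.Agent.Helper82.AC
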