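import Pool.Agent.Helper82.AC.Hol

/-!
# The almost complex structure without rational curves through some points
-/

open scoped Manifold ContDiff Topology RealInnerProductSpace
open Set Metric Module

noncomputable section

namespace Pool.Agent.Helper82.AC

attribute [local instance] fact3

/-- A bump function: `1` for `|t| ≤ 1/4` and `0` for `|t| ≥ 1/2`. -/
def bt (t : ℝ) : ℝ := Real.smoothTransition ((4 - 16 * t ^ 2) / 3)

/-- The bump function divided by `1 - t²`. -/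
def gm (t : ℝ) : ℝ := bt t / (1 - t ^ 2)

lemma bt_contDiff : ContDiff ℝ ∞ bt :=
  Real.smoothTransition.contDiff.comp
    ((contDiff_const.sub (contDiff_const.mul (contDiff_id.pow 2))).div_const 3)

lemma bt_one {t : ℝ} (h : |t| < 1 / 4) : bt t = 1 := by
  apply Real.smoothTransition.one_of_one_le
  have := sq_lt_sq' (by linarith [(abs_lt.1 h).1]) (abs_lt.1 h).2
  norm_num at this ⊢
  linarith

lemma bt_zero {t : ℝ} (h : 1 / 2 ≤ |t|) : bt t = 0 := by
  apply Real.smoothTransition.zero_of_nonpos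
  have := sq_le_sq' (by linarith [abs_nonneg t]) h
  rw [sq_abs] at this
  norm_num at this ⊢
  linarith

lemma gm_contDiff : ContDiff ℝ ∞ gm := by
  rw [contDiff_iff_contDiffAt]
  intro t
  by_cases h : |t| < 1
  · apply ContDiffAt.div bt_contDiff.contDiffAt
    · exact contDiffAt_const.sub (contDiffAt_id.pow 2)
    · have h2 := sq_lt_sq' (by linarith [(abs_lt.1 h).1]) (abs_lt.1 h).2
      have h3 : (1 : ℝ) - t ^ 2 ≠ 0 := by linarith
      exact h3
  · have hev : gm =ᶠ[𝓝 t] fun _ => 0 := by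
      have : ∀ᶠ s in 𝓝 t, 1 / 2 < |s| :=
        (isOpen_lt continuous_const continuous_abs).mem_nhds (by
          simp only [mem_ofPred_eq]
          push Not at h
          linarith)
      filter_upwards [this] with s hs
      simp [gm, bt_zero hs.le]
    exact contDiffAt_const.congr_of_eventuallyEq hev

lemma gm_mul (t : ℝ) : gm t * (1 - t * t) = bt t := by
  by_cases h : 1 - t ^ 2 = 0
  · have ht : t ^ 2 = 1 := by linarith
    have h1 : |t| = 1 := by
      rw [← sq_abs] at ht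
      have := abs_nonneg t
      nlinarith
    have : bt t = 0 := bt_zero (by rw [h1]; norm_num)
    rw [this, gm, h]
    simp [this]
  · rw [gm, ← pow_two, div_mul_cancel₀ _ h]

/-- The product of the two bump functions. -/
def chi (p : E3 × E3) : ℝ := bt (p.1 2) * bt (p.2 2)

/-- The first coefficient of the almost complex structure. -/
def cJ (p : E3 × E3) : ℝ := (1 - chi p ^ 2) / (1 + chi p ^ 2)

/-- The second coefficient of the almost complex structure. -/
def s1J (p : E3 × E3) : ℝ := 2 * (gm (p.1 2) * bt (p.2 2)) / (1 + chi p ^ 2)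

/-- The third coefficient of the almost complex structure. -/
def s2J (p : E3 × E3) : ℝ := 2 * (bt (p.1 2) * gm (p.2 2)) / (1 + chi p ^ 2)

lemma contDiff_x2 : ContDiff ℝ ∞ (fun p : E3 × E3 => p.1 2) := (contDiff_coord 2).comp contDiff_fst
lemma contDiff_y2 : ContDiff ℝ ∞ (fun p : E3 × E3 => p.2 2) := (contDiff_coord 2).comp contDiff_snd

lemma contDiff_chi : ContDiff ℝ ∞ chi :=
  (bt_contDiff.comp contDiff_x2).mul (bt_contDiff.comp contDiff_y2)

lemma contDiff_cJ : ContDiff ℝ ∞ cJ :=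
  (contDiff_const.sub (contDiff_chi.pow 2)).div (contDiff_const.add (contDiff_chi.pow 2))
    (fun p => by positivity)

lemma contDiff_s1J : ContDiff ℝ ∞ s1J :=
  (contDiff_const.mul ((gm_contDiff.comp contDiff_x2).mul (bt_contDiff.comp contDiff_y2))).div
    (contDiff_const.add (contDiff_chi.pow 2)) (fun p => by positivity)

lemma contDiff_s2J : ContDiff ℝ ∞ s2J :=
  (contDiff_const.mul ((bt_contDiff.comp contDiff_x2).mul (gm_contDiff.comp contDiff_y2))).div
    (contDiff_const.add (contDiff_chi.pow 2)) (fun p => by positivity)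

lemma unimod_J : Unimod cJ s1J s2J := by
  intro x y
  have h1 := gm_mul ((x : E3) 2)
  have h2 := gm_mul ((y : E3) 2)
  have h3 : (1 + chi ((x : E3), (y : E3)) ^ 2) ≠ 0 := by positivity
  have hchi : chi ((x : E3), (y : E3)) = bt ((x : E3) 2) * bt ((y : E3) 2) := rfl
  unfold cJ s1J s2J
  simp only
  generalize chi ((x : E3), (y : E3)) = k at h3 hchi ⊢
  have e : 2 * (gm ((x : E3) 2) * bt ((y : E3) 2)) / (1 + k ^ 2) *
      (2 * (bt ((x : E3) 2) * gm ((y : E3) 2)) / (1 + k ^ 2)) *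
      ((1 - (x : E3) 2 * (x : E3) 2) * (1 - (y : E3) 2 * (y : E3) 2))
      = 4 * k ^ 2 / (1 + k ^ 2) ^ 2 := by
    rw [div_mul_div_comm, div_mul_eq_mul_div, ← pow_two (1 + k ^ 2)]
    congr 1
    rw [hchi]
    calc _ = 4 * (gm ((x : E3) 2) * (1 - (x : E3) 2 * (x : E3) 2)) *
          (gm ((y : E3) 2) * (1 - (y : E3) 2 * (y : E3) 2)) * bt ((x : E3) 2) * bt ((y : E3) 2) := by
            ring
      _ = _ := by rw [h1, h2]; ring
  rw [e]
  field_simp
  ring

/-- The almost complex structure on `S² × S²` for which no non-constant rational curve passes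
through the torus of points with both heights equal to `0`. -/
def J1 : AlmostComplexStructure IM (S2 × S2) :=
  mkJ cJ s1J s2J contDiff_cJ contDiff_s1J contDiff_s2J unimod_J

/-- In the region where both heights are small the structure has a simple form. -/
lemma cJ_region {p : E3 × E3} (h1 : |p.1 2| < 1 / 4) (h2 : |p.2 2| < 1 / 4) : cJ p = 0 := by
  simp [cJ, chi, bt_one h1, bt_one h2]

lemma s1J_region {p : E3 × E3} (h1 : |p.1 2| < 1 / 4) (h2 : |p.2 2| < 1 / 4) :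
    s1J p * (1 - p.1 2 * p.1 2) = 1 := by
  have h := gm_mul (p.1 2)
  rw [bt_one h1] at h
  simp only [s1J, chi, bt_one h1, bt_one h2]
  norm_num
  linarith

lemma s2J_region {p : E3 × E3} (h1 : |p.1 2| < 1 / 4) (h2 : |p.2 2| < 1 / 4) :
    s2J p * (1 - p.2 2 * p.2 2) = 1 := by
  have h := gm_mul (p.2 2)
  rw [bt_one h2] at h
  simp only [s2J, chi, bt_one h1, bt_one h2]
  norm_num
  linarith

/-- The real-linear identification of the plane with the complex numbers. -/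
def ec : ℝ × ℝ →L[ℝ] ℂ := (Complex.equivRealProdCLM.symm : ℝ × ℝ →L[ℝ] ℂ)

lemma ec_apply (p : ℝ × ℝ) : ec p = p.1 + p.2 * Complex.I :=
  Complex.equivRealProdCLM_symm_apply p

lemma ec_norm_le (p : ℝ × ℝ) : ‖ec p‖ ≤ 2 * ‖p‖ := by
  rw [ec_apply]
  refine (norm_add_le _ _).trans ?_
  rw [norm_mul, Complex.norm_I, mul_one, Complex.norm_real, Complex.norm_real]
  have := norm_fst_le p
  have := norm_snd_le p
  linarith

lemma le_ec_norm (p : ℝ × ℝ) : ‖p‖ ≤ ‖ec p‖ := by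
  have h1 : (ec p).re = p.1 := by rw [ec_apply]; simp
  have h2 : (ec p).im = p.2 := by rw [ec_apply]; simp
  rw [Prod.norm_def, Real.norm_eq_abs, Real.norm_eq_abs, ← h1, ← h2]
  exact max_le (Complex.abs_re_le_norm _) (Complex.abs_im_le_norm _)

lemma abs_coord_le (x : E3) (i : Fin 3) : |x i| ≤ ‖x‖ := by
  have := PiLp.norm_apply_le x i
  simpa using this

/-- The height function of the first factor in real coordinates. -/
def g1 (f : ℂ → S2 × S2) (p : ℝ × ℝ) : ℝ := (amb f (ec p)).1 2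

/-- The height function of the second factor in real coordinates. -/
def g2 (f : ℂ → S2 × S2) (p : ℝ × ℝ) : ℝ := (amb f (ec p)).2 2

lemma contDiff_g1 {f : ℂ → S2 × S2} (hf : ContMDiff 𝓘(ℝ, ℂ) IM ∞ f) : ContDiff ℝ ∞ (g1 f) :=
  contDiff_x2.comp ((contDiff_amb hf).comp ec.contDiff)

lemma contDiff_g2 {f : ℂ → S2 × S2} (hf : ContMDiff 𝓘(ℝ, ℂ) IM ∞ f) : ContDiff ℝ ∞ (g2 f) :=
  contDiff_y2.comp ((contDiff_amb hf).comp ec.contDiff)

lemma fderiv_g1 {f : ℂ → S2 × S2} (hf : ContMDiff 𝓘(ℝ, ℂ) IM ∞ f) (p v : ℝ × ℝ) :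
    fderiv ℝ (g1 f) p v = (fderiv ℝ (amb f) (ec p) (ec v)).1 2 := by
  have h1 : HasFDerivAt (amb f) (fderiv ℝ (amb f) (ec p)) (ec p) :=
    ((contDiff_amb hf).differentiable (by simp) _).hasFDerivAt
  have h2 : HasFDerivAt (fun q => amb f (ec q)) ((fderiv ℝ (amb f) (ec p)).comp ec) p :=
    h1.comp p ec.hasFDerivAt
  have h3 : HasFDerivAt (g1 f) ((EuclideanSpace.proj (𝕜 := ℝ) (2 : Fin 3)).comp
      ((ContinuousLinearMap.fst ℝ E3 E3).comp ((fderiv ℝ (amb f) (ec p)).comp ec))) p :=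
    (EuclideanSpace.proj (𝕜 := ℝ) (2 : Fin 3)).hasFDerivAt.comp p
      ((ContinuousLinearMap.fst ℝ E3 E3).hasFDerivAt.comp p h2)
  rw [h3.fderiv]
  rfl

lemma fderiv_g2 {f : ℂ → S2 × S2} (hf : ContMDiff 𝓘(ℝ, ℂ) IM ∞ f) (p v : ℝ × ℝ) :
    fderiv ℝ (g2 f) p v = (fderiv ℝ (amb f) (ec p) (ec v)).2 2 := by
  have h1 : HasFDerivAt (amb f) (fderiv ℝ (amb f) (ec p)) (ec p) :=
    ((contDiff_amb hf).differentiable (by simp) _).hasFDerivAt
  have h2 : HasFDerivAt (fun q => amb f (ec q)) ((fderiv ℝ (amb f) (ec p)).comp ec) p :=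
    h1.comp p ec.hasFDerivAt
  have h3 : HasFDerivAt (g2 f) ((EuclideanSpace.proj (𝕜 := ℝ) (2 : Fin 3)).comp
      ((ContinuousLinearMap.snd ℝ E3 E3).comp ((fderiv ℝ (amb f) (ec p)).comp ec))) p :=
    (EuclideanSpace.proj (𝕜 := ℝ) (2 : Fin 3)).hasFDerivAt.comp p
      ((ContinuousLinearMap.snd ℝ E3 E3).hasFDerivAt.comp p h2)
  rw [h3.fderiv]
  rfl

lemma ec_one : ec (1, 0) = 1 := by simp [ec_apply]
lemma ec_I : ec (0, 1) = Complex.I * 1 := by simp [ec_apply]

/-- In the region the heights satisfy the Cauchy-Riemann equations. -/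
lemma region_cr {f : ℂ → S2 × S2} (hf : IsHolomorphic J1 f) {z : ℂ}
    (h1 : |(amb f z).1 2| < 1 / 4) (h2 : |(amb f z).2 2| < 1 / 4) :
    (fderiv ℝ (amb f) z (Complex.I * 1)).1 2 = - (fderiv ℝ (amb f) z 1).2 2 ∧
    (fderiv ℝ (amb f) z (Complex.I * 1)).2 2 = (fderiv ℝ (amb f) z 1).1 2 := by
  rw [hol_amb hf]
  constructor
  · change Afst cJ s1J _ _ 2 = _
    rw [Afst_two, cJ_region h1 h2]
    linear_combination (-(fderiv ℝ (amb f) z 1).2 2) * s1J_region h1 h2
  · change Asnd cJ s2J _ _ 2 = _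
    rw [Asnd_two, cJ_region h1 h2]
    linear_combination ((fderiv ℝ (amb f) z 1).1 2) * s2J_region h1 h2

lemma heights_le_one (f : ℂ → S2 × S2) (z : ℂ) : |(amb f z).1 2| ≤ 1 := by
  have h := abs_coord_le ((f z).1 : E3) 2
  have h' : ‖((f z).1 : E3)‖ = 1 := by simp
  rw [h'] at h
  exact h

/-- First step: if a pseudoholomorphic sphere meets the torus, both heights vanish on it. -/
lemma heights_zero {f f' : ℂ → S2 × S2} (hf : IsHolomorphic J1 f) (hf' : IsHolomorphic J1 f')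
    (hff' : ∀ z : ℂ, z ≠ 0 → f z = f' z⁻¹) {z₀ : ℂ} (h1 : (amb f z₀).1 2 = 0)
    (h2 : (amb f z₀).2 2 = 0) (z : ℂ) : (amb f z).1 2 = 0 ∧ (amb f z).2 2 = 0 := by
  obtain ⟨C, hC0, hC⟩ := decay (amb f) (amb f') (contDiff_amb hf'.1)
    (fun z hz => by simp only [amb, hff' z hz])
  have hc1 := contDiff_g1 hf.1
  have hc2 := contDiff_g2 hf.1
  have hjac : ∀ p, |g1 f p| < 1 / 4 → |g2 f p| < 1 / 4 → jac (g1 f) (g2 f) p =
      (fderiv ℝ (g1 f) p (1, 0)) ^ 2 + (fderiv ℝ (g2 f) p (1, 0)) ^ 2 := by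
    intro p hp1 hp2
    obtain ⟨e1, e2⟩ := region_cr hf (z := ec p) hp1 hp2
    simp only [jac, fderiv_g1 hf.1, fderiv_g2 hf.1, ec_one, ec_I, e1, e2]
    ring
  have hzero : ∀ p, |g1 f p| < 1 / 4 → |g2 f p| < 1 / 4 → jac (g1 f) (g2 f) p = 0 := by
    intro p hp1 hp2
    refine jac_eq_zero (by norm_num) (g1 f) (g2 f) (hc1.of_le (WithTop.coe_le_coe.2 le_top))
      (hc2.of_le (WithTop.coe_le_coe.2 le_top)) (fun p => heights_le_one f (ec p)) (2 * C) ?_ ?_
      p hp1 hp2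
    · intro p v hp
      rw [fderiv_g2 hf.1]
      have hp' : 1 ≤ ‖ec p‖ := hp.trans (le_ec_norm p)
      have hb := hC (ec p) hp'
      have hpos : 0 < ‖p‖ := by linarith
      calc |(fderiv ℝ (amb f) (ec p) (ec v)).2 2|
          ≤ ‖(fderiv ℝ (amb f) (ec p) (ec v)).2‖ := abs_coord_le _ _
        _ ≤ ‖fderiv ℝ (amb f) (ec p) (ec v)‖ := norm_snd_le _
        _ ≤ ‖fderiv ℝ (amb f) (ec p)‖ * ‖ec v‖ := ContinuousLinearMap.le_opNorm _ _
        _ ≤ (C / ‖ec p‖ ^ 2) * (2 * ‖v‖) :=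
            mul_le_mul hb (ec_norm_le v) (norm_nonneg _) (by positivity)
        _ ≤ (C / ‖p‖ ^ 2) * (2 * ‖v‖) := by
            apply mul_le_mul_of_nonneg_right _ (by positivity)
            apply div_le_div_of_nonneg_left hC0 (by positivity)
            exact pow_le_pow_left₀ hpos.le (le_ec_norm p) 2
        _ = 2 * C / ‖p‖ ^ 2 * ‖v‖ := by ring
    · intro p hp1 hp2
      rw [hjac p hp1 hp2]
      positivity
  -- the derivatives vanish in the region
  have hd : ∀ p, |g1 f p| < 1 / 4 → |g2 f p| < 1 / 4 →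
      fderiv ℝ (g1 f) p = 0 ∧ fderiv ℝ (g2 f) p = 0 := by
    intro p hp1 hp2
    have e0 := hzero p hp1 hp2
    rw [hjac p hp1 hp2] at e0
    have a1 : fderiv ℝ (g1 f) p (1, 0) = 0 := by
      nlinarith [sq_nonneg (fderiv ℝ (g1 f) p (1, 0)), sq_nonneg (fderiv ℝ (g2 f) p (1, 0))]
    have a2 : fderiv ℝ (g2 f) p (1, 0) = 0 := by
      nlinarith [sq_nonneg (fderiv ℝ (g1 f) p (1, 0)), sq_nonneg (fderiv ℝ (g2 f) p (1, 0))]
    obtain ⟨e1, e2⟩ := region_cr hf (z := ec p) hp1 hp2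
    have b1 : fderiv ℝ (g1 f) p (0, 1) = 0 := by
      rw [fderiv_g1 hf.1, ec_I, e1, ← ec_one, ← fderiv_g2 hf.1, a2, neg_zero]
    have b2 : fderiv ℝ (g2 f) p (0, 1) = 0 := by
      rw [fderiv_g2 hf.1, ec_I, e2, ← ec_one, ← fderiv_g1 hf.1, a1]
    have hlin : ∀ L : ℝ × ℝ →L[ℝ] ℝ, L (1, 0) = 0 → L (0, 1) = 0 → L = 0 := by
      intro L l1 l2
      ext <;> simp [l1, l2]
    exact ⟨hlin _ a1 b1, hlin _ a2 b2⟩
  -- the set where both heights vanish is open and closed
  set U : Set (ℝ × ℝ) := {p | |g1 f p| < 1 / 4} ∩ {p | |g2 f p| < 1 / 4} with hU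
  have hUo : IsOpen U :=
    (isOpen_lt hc1.continuous.abs continuous_const).inter
      (isOpen_lt hc2.continuous.abs continuous_const)
  have o1 : IsOpen (U ∩ (g1 f) ⁻¹' {0}) :=
    hUo.isOpen_inter_preimage_of_fderiv_eq_zero (hc1.differentiable (by simp)).differentiableOn
      (fun p hp => (hd p hp.1 hp.2).1) {0}
  have o2 : IsOpen (U ∩ (g2 f) ⁻¹' {0}) :=
    hUo.isOpen_inter_preimage_of_fderiv_eq_zero (hc2.differentiable (by simp)).differentiableOn
      (fun p hp => (hd p hp.1 hp.2).2) {0}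
  set Z : Set (ℝ × ℝ) := (g1 f) ⁻¹' {0} ∩ (g2 f) ⁻¹' {0} with hZ
  have hZU : Z = (U ∩ (g1 f) ⁻¹' {0}) ∩ (U ∩ (g2 f) ⁻¹' {0}) := by
    ext p
    simp only [hZ, hU, mem_inter_iff, mem_preimage, mem_singleton_iff, mem_ofPred_eq]
    constructor
    · rintro ⟨p1, p2⟩
      have : |(0 : ℝ)| < 1 / 4 := by norm_num
      rw [p1, p2]
      exact ⟨⟨⟨this, this⟩, rfl⟩, ⟨⟨this, this⟩, rfl⟩⟩
    · rintro ⟨⟨_, p1⟩, ⟨_, p2⟩⟩
      exact ⟨p1, p2⟩
  have hZo : IsOpen Z := by rw [hZU]; exact o1.inter o2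
  have hZc : IsClosed Z :=
    (isClosed_singleton.preimage hc1.continuous).inter (isClosed_singleton.preimage hc2.continuous)
  have hec : ∀ z : ℂ, ec (z.re, z.im) = z := by
    intro z
    rw [ec_apply]
    exact Complex.re_add_im z
  have hZne : Z.Nonempty := by
    refine ⟨(z₀.re, z₀.im), ?_, ?_⟩
    · change g1 f _ = 0
      rw [g1, hec]
      exact h1
    · change g2 f _ = 0
      rw [g2, hec]
      exact h2
  have hZuniv : Z = univ := IsClopen.eq_univ ⟨hZc, hZo⟩ hZne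
  have hz : (z.re, z.im) ∈ Z := by rw [hZuniv]; trivial
  have hz1 : g1 f (z.re, z.im) = 0 := hz.1
  have hz2 : g2 f (z.re, z.im) = 0 := hz.2
  rw [g1, hec] at hz1
  rw [g2, hec] at hz2
  exact ⟨hz1, hz2⟩

end Pool.Agent.Helper82.AC
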