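import Mathlib

/-!
# Stokes' theorem on the plane for forms which extend to the sphere
-/

open Set MeasureTheory
open scoped Topology ContDiff

noncomputable section

namespace Pool.Agent.Helper82.AC

/-- The integral over a segment of length `2 R` of a function bounded by `C / R ^ 2`. -/
lemma seg_bound {g : ℝ → ℝ} {C R : ℝ} (hR : 1 ≤ R) (hg : ∀ t ∈ Icc (-R) R, |g t| ≤ C / R ^ 2) :
    |∫ t in (-R)..R, g t| ≤ 2 * C / R := by
  have h := intervalIntegral.norm_integral_le_of_norm_le_const (a := -R) (b := R) (f := g)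
    (C := C / R ^ 2) (by
      intro t ht
      rw [uIoc_of_le (by linarith)] at ht
      exact hg t ⟨ht.1.le, ht.2⟩)
  rw [Real.norm_eq_abs] at h
  refine h.trans (le_of_eq ?_)
  rw [abs_of_nonneg (by linarith)]
  field_simp
  ring

/-- Stokes' theorem on the plane: if `P da + Q db` decays like `1 / R ^ 2` and its differential is
nonnegative then its differential vanishes. -/
lemma stokes_plane (P Q : ℝ × ℝ → ℝ) (hP : ContDiff ℝ 1 P) (hQ : ContDiff ℝ 1 Q)
    (hpos : ∀ p, 0 ≤ fderiv ℝ Q p (1, 0) - fderiv ℝ P p (0, 1))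
    (C : ℝ) (hPC : ∀ p : ℝ × ℝ, 1 ≤ ‖p‖ → |P p| ≤ C / ‖p‖ ^ 2)
    (hQC : ∀ p : ℝ × ℝ, 1 ≤ ‖p‖ → |Q p| ≤ C / ‖p‖ ^ 2) (p : ℝ × ℝ) :
    fderiv ℝ Q p (1, 0) - fderiv ℝ P p (0, 1) = 0 := by
  set h : ℝ × ℝ → ℝ := fun p => fderiv ℝ Q p (1, 0) - fderiv ℝ P p (0, 1) with hh
  have hcont : Continuous h :=
    ((hQ.continuous_fderiv one_ne_zero).clm_apply continuous_const).sub
      ((hP.continuous_fderiv one_ne_zero).clm_apply continuous_const)
  have key : ∀ R : ℝ, 1 ≤ R → ∫ x in Icc ((-R, -R) : ℝ × ℝ) (R, R), h x ≤ 8 * C / R := by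
    intro R hR
    have hR0 : 0 < R := by linarith
    have hle : ((-R, -R) : ℝ × ℝ) ≤ (R, R) := ⟨by simp; linarith, by simp; linarith⟩
    have hdiv := integral_divergence_prod_Icc_of_hasFDerivAt_off_countable_of_le
      Q (fun p => - P p) (fun p => fderiv ℝ Q p) (fun p => - fderiv ℝ P p)
      ((-R, -R) : ℝ × ℝ) (R, R) hle ∅ (by simp)
      hQ.continuous.continuousOn hP.continuous.neg.continuousOn
      (fun x _ => (hQ.differentiable one_ne_zero x).hasFDerivAt)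
      (fun x _ => (hP.differentiable one_ne_zero x).hasFDerivAt.neg)
      (by
        refine (Continuous.continuousOn ?_).integrableOn_compact isCompact_Icc
        exact ((hQ.continuous_fderiv one_ne_zero).clm_apply continuous_const).add
          ((hP.continuous_fderiv one_ne_zero).neg.clm_apply continuous_const))
    have heq : ∀ x : ℝ × ℝ, h x = fderiv ℝ Q x (1, 0) + (-fderiv ℝ P x) (0, 1) := by
      intro x
      simp [hh, sub_eq_add_neg]
    simp only [heq]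
    rw [hdiv]
    simp only [intervalIntegral.integral_neg]
    have hnorm1 : ∀ t ∈ Icc (-R) R, ‖((t, R) : ℝ × ℝ)‖ = R := by
      intro t ht
      simp only [Prod.norm_def, Real.norm_eq_abs, abs_of_pos hR0]
      exact max_eq_right (abs_le.2 ht)
    have hnorm2 : ∀ t ∈ Icc (-R) R, ‖((t, -R) : ℝ × ℝ)‖ = R := by
      intro t ht
      simp only [Prod.norm_def, Real.norm_eq_abs, abs_neg, abs_of_pos hR0]
      exact max_eq_right (abs_le.2 ht)
    have hnorm3 : ∀ t ∈ Icc (-R) R, ‖((R, t) : ℝ × ℝ)‖ = R := by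
      intro t ht
      simp only [Prod.norm_def, Real.norm_eq_abs, abs_of_pos hR0]
      exact max_eq_left (abs_le.2 ht)
    have hnorm4 : ∀ t ∈ Icc (-R) R, ‖((-R, t) : ℝ × ℝ)‖ = R := by
      intro t ht
      simp only [Prod.norm_def, Real.norm_eq_abs, abs_neg, abs_of_pos hR0]
      exact max_eq_left (abs_le.2 ht)
    have b1 := seg_bound (g := fun t => P (t, R)) (C := C) hR (fun t ht => by
      have := hPC (t, R) (by rw [hnorm1 t ht]; exact hR)
      rwa [hnorm1 t ht] at this)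
    have b2 := seg_bound (g := fun t => P (t, -R)) (C := C) hR (fun t ht => by
      have := hPC (t, -R) (by rw [hnorm2 t ht]; exact hR)
      rwa [hnorm2 t ht] at this)
    have b3 := seg_bound (g := fun t => Q (R, t)) (C := C) hR (fun t ht => by
      have := hQC (R, t) (by rw [hnorm3 t ht]; exact hR)
      rwa [hnorm3 t ht] at this)
    have b4 := seg_bound (g := fun t => Q (-R, t)) (C := C) hR (fun t ht => by
      have := hQC (-R, t) (by rw [hnorm4 t ht]; exact hR)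
      rwa [hnorm4 t ht] at this)
    have e : 8 * C / R = 2 * C / R + 2 * C / R + 2 * C / R + 2 * C / R := by ring
    rw [e]
    have := abs_le.1 b1
    have := abs_le.1 b2
    have := abs_le.1 b3
    have := abs_le.1 b4
    linarith
  -- monotonicity
  have hmono : ∀ R₀ R : ℝ, R₀ ≤ R →
      ∫ x in Icc ((-R₀, -R₀) : ℝ × ℝ) (R₀, R₀), h x ≤ ∫ x in Icc ((-R, -R) : ℝ × ℝ) (R, R), h x := by
    intro R₀ R hRR
    apply setIntegral_mono_set
    · exact hcont.continuousOn.integrableOn_compact isCompact_Icc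
    · exact Filter.Eventually.of_forall fun x => hpos x
    · apply HasSubset.Subset.eventuallyLE
      apply Icc_subset_Icc
      · exact ⟨by simp; linarith, by simp; linarith⟩
      · exact ⟨by simp; linarith, by simp; linarith⟩
  have hzero : ∀ R₀ : ℝ, ∫ x in Icc ((-R₀, -R₀) : ℝ × ℝ) (R₀, R₀), h x ≤ 0 := by
    intro R₀
    have hlim : Filter.Tendsto (fun R : ℝ => 8 * C / R) Filter.atTop (𝓝 0) :=
      tendsto_const_nhds.div_atTop Filter.tendsto_id
    refine ge_of_tendsto hlim ?_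
    filter_upwards [Filter.eventually_ge_atTop (max R₀ 1)] with R hR
    exact (hmono R₀ R ((le_max_left _ _).trans hR)).trans (key R ((le_max_right _ _).trans hR))
  have hae : h =ᵐ[volume.restrict (Icc ((-(‖p‖ + 1), -(‖p‖ + 1)) : ℝ × ℝ) (‖p‖ + 1, ‖p‖ + 1))] 0 := by
    rw [← setIntegral_eq_zero_iff_of_nonneg_ae]
    · exact le_antisymm (hzero _) (setIntegral_nonneg measurableSet_Icc fun x _ => hpos x)
    · exact Filter.Eventually.of_forall fun x => hpos x
    · exact hcont.continuousOn.integrableOn_compact isCompact_Icc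
  have hsub : Metric.ball p 1 ⊆ Icc ((-(‖p‖ + 1), -(‖p‖ + 1)) : ℝ × ℝ) (‖p‖ + 1, ‖p‖ + 1) := by
    intro x hx
    have hx' : ‖x‖ ≤ ‖p‖ + 1 := by
      have : ‖x - p‖ < 1 := by simpa [dist_eq_norm] using hx
      calc ‖x‖ = ‖p + (x - p)‖ := by congr 1; abel
        _ ≤ ‖p‖ + ‖x - p‖ := norm_add_le _ _
        _ ≤ ‖p‖ + 1 := by linarith
    have h1 : |x.1| ≤ ‖p‖ + 1 := (norm_fst_le x).trans hx'
    have h2 : |x.2| ≤ ‖p‖ + 1 := (norm_snd_le x).trans hx'
    exact ⟨⟨(abs_le.1 h1).1, (abs_le.1 h2).1⟩, ⟨(abs_le.1 h1).2, (abs_le.1 h2).2⟩⟩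
  have hae' : h =ᵐ[volume.restrict (Metric.ball p 1)] 0 :=
    ae_restrict_of_ae_restrict_of_subset hsub hae
  have := MeasureTheory.Measure.eqOn_open_of_ae_eq hae' Metric.isOpen_ball hcont.continuousOn
    continuousOn_const (Metric.mem_ball_self one_pos)
  simpa using this

/-- The bump function used as a density. -/
def bmp (δ t : ℝ) : ℝ := Real.smoothTransition (δ ^ 2 - t ^ 2)

/-- The primitive of the bump function. -/
def Bmp (δ t : ℝ) : ℝ := ∫ s in (0 : ℝ)..t, bmp δ s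

lemma bmp_contDiff (δ : ℝ) {n : ℕ∞} : ContDiff ℝ n (bmp δ) :=
  Real.smoothTransition.contDiff.comp (contDiff_const.sub (contDiff_id.pow 2))

lemma bmp_nonneg (δ t : ℝ) : 0 ≤ bmp δ t := Real.smoothTransition.nonneg _

lemma bmp_le_one (δ t : ℝ) : bmp δ t ≤ 1 := Real.smoothTransition.le_one _

lemma bmp_pos {δ t : ℝ} (h : |t| < δ) : 0 < bmp δ t := by
  apply Real.smoothTransition.pos_of_pos
  have := sq_lt_sq' (by linarith [(abs_lt.1 h).1]) (abs_lt.1 h).2
  linarith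

lemma bmp_zero {δ t : ℝ} (hδ : 0 < δ) (h : δ ≤ |t|) : bmp δ t = 0 := by
  apply Real.smoothTransition.zero_of_nonpos
  have := sq_le_sq' (by linarith) h
  rw [sq_abs] at this
  linarith

lemma Bmp_hasDerivAt (δ t : ℝ) : HasDerivAt (Bmp δ) (bmp δ t) t :=
  intervalIntegral.integral_hasDerivAt_right
    ((bmp_contDiff δ (n := 0)).continuous.intervalIntegrable _ _)
    ((bmp_contDiff δ (n := 0)).continuous.stronglyMeasurableAtFilter _ _)
    (bmp_contDiff δ (n := 0)).continuous.continuousAt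

lemma Bmp_contDiff (δ : ℝ) : ContDiff ℝ 1 (Bmp δ) := by
  rw [contDiff_one_iff_deriv]
  have hd : deriv (Bmp δ) = bmp δ := funext fun t => (Bmp_hasDerivAt δ t).deriv
  refine ⟨fun t => (Bmp_hasDerivAt δ t).differentiableAt, ?_⟩
  rw [hd]
  exact (bmp_contDiff δ (n := 0)).continuous

lemma abs_Bmp_le (δ t : ℝ) : |Bmp δ t| ≤ |t| := by
  have h := intervalIntegral.norm_integral_le_of_norm_le_const (a := 0) (b := t) (f := bmp δ)
    (C := 1) (by
      intro s _
      rw [Real.norm_eq_abs, abs_of_nonneg (bmp_nonneg δ s)]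
      exact bmp_le_one δ s)
  simpa [Bmp] using h

/-- The Jacobian determinant of `(g₁, g₂)`. -/
def jac (g₁ g₂ : ℝ × ℝ → ℝ) (p : ℝ × ℝ) : ℝ :=
  fderiv ℝ g₁ p (1, 0) * fderiv ℝ g₂ p (0, 1) - fderiv ℝ g₁ p (0, 1) * fderiv ℝ g₂ p (1, 0)

/-- Degree argument: if `(g₁, g₂)` extends to the sphere, has nonnegative Jacobian over the square
of size `δ`, then the Jacobian vanishes over this square. -/
lemma jac_eq_zero {δ : ℝ} (hδ : 0 < δ) (g₁ g₂ : ℝ × ℝ → ℝ) (h₁ : ContDiff ℝ 2 g₁)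
    (h₂ : ContDiff ℝ 2 g₂) (hb : ∀ p, |g₁ p| ≤ 1) (C : ℝ)
    (hdec : ∀ p v : ℝ × ℝ, 1 ≤ ‖p‖ → |fderiv ℝ g₂ p v| ≤ C / ‖p‖ ^ 2 * ‖v‖)
    (hJ : ∀ p, |g₁ p| < δ → |g₂ p| < δ → 0 ≤ jac g₁ g₂ p) (p : ℝ × ℝ)
    (hp₁ : |g₁ p| < δ) (hp₂ : |g₂ p| < δ) : jac g₁ g₂ p = 0 := by
  have hd₂ : ∀ v : ℝ × ℝ, ContDiff ℝ 1 (fun q => fderiv ℝ g₂ q v) := fun v =>
    (h₂.fderiv_right (m := 1) (by norm_num)).clm_apply contDiff_const
  set F : ℝ × ℝ → ℝ := fun q => Bmp δ (g₁ q) * bmp δ (g₂ q) with hF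
  have hFc : ContDiff ℝ 1 F :=
    ((Bmp_contDiff δ).comp (h₁.of_le (by norm_num))).mul
      ((bmp_contDiff δ (n := 1)).comp (h₂.of_le (by norm_num)))
  set P : ℝ × ℝ → ℝ := fun q => F q * fderiv ℝ g₂ q (1, 0) with hP
  set Q : ℝ × ℝ → ℝ := fun q => F q * fderiv ℝ g₂ q (0, 1) with hQ
  have hPc : ContDiff ℝ 1 P := hFc.mul (hd₂ _)
  have hQc : ContDiff ℝ 1 Q := hFc.mul (hd₂ _)
  -- derivative of `F`
  have hFd : ∀ q v, fderiv ℝ F q v = bmp δ (g₁ q) * fderiv ℝ g₁ q v * bmp δ (g₂ q)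
      + Bmp δ (g₁ q) * (deriv (bmp δ) (g₂ q) * fderiv ℝ g₂ q v) := by
    intro q v
    have e₁ : HasFDerivAt (fun q => Bmp δ (g₁ q)) (bmp δ (g₁ q) • fderiv ℝ g₁ q) q :=
      (Bmp_hasDerivAt δ (g₁ q)).comp_hasFDerivAt q
        (h₁.differentiable (by norm_num) q).hasFDerivAt
    have e₂ : HasFDerivAt (fun q => bmp δ (g₂ q)) (deriv (bmp δ) (g₂ q) • fderiv ℝ g₂ q) q :=
      ((bmp_contDiff δ (n := 1)).differentiable (by norm_num) _).hasDerivAt.comp_hasFDerivAt q
        (h₂.differentiable (by norm_num) q).hasFDerivAt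
    have e := e₁.mul e₂
    have e' : fderiv ℝ F q = _ := e.fderiv
    rw [e']
    simp only [ContinuousLinearMap.add_apply, ContinuousLinearMap.smul_apply, smul_eq_mul]
    ring
  have hsymm : ∀ q, fderiv ℝ (fun q => fderiv ℝ g₂ q (0, 1)) q (1, 0)
      = fderiv ℝ (fun q => fderiv ℝ g₂ q (1, 0)) q (0, 1) := by
    intro q
    have hdd : DifferentiableAt ℝ (fderiv ℝ g₂) q :=
      (h₂.fderiv_right (m := 1) (by norm_num)).differentiable (by norm_num) q
    have es := (h₂.contDiffAt (x := q)).isSymmSndFDerivAt (by simp)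
    have e1 : fderiv ℝ (fun q => fderiv ℝ g₂ q (0, 1)) q (1, 0)
        = fderiv ℝ (fderiv ℝ g₂) q (1, 0) (0, 1) := by
      rw [fderiv_clm_apply hdd (differentiableAt_const _)]
      simp
    have e2 : fderiv ℝ (fun q => fderiv ℝ g₂ q (1, 0)) q (0, 1)
        = fderiv ℝ (fderiv ℝ g₂) q (0, 1) (1, 0) := by
      rw [fderiv_clm_apply hdd (differentiableAt_const _)]
      simp
    rw [e1, e2]
    exact es.eq _ _
  have hcurl : ∀ q, fderiv ℝ Q q (1, 0) - fderiv ℝ P q (0, 1)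
      = bmp δ (g₁ q) * bmp δ (g₂ q) * jac g₁ g₂ q := by
    intro q
    have e1 : fderiv ℝ Q q (1, 0) = F q * fderiv ℝ (fun q => fderiv ℝ g₂ q (0, 1)) q (1, 0)
        + fderiv ℝ F q (1, 0) * fderiv ℝ g₂ q (0, 1) := by
      have := ((hFc.differentiable one_ne_zero q).hasFDerivAt.mul
        ((hd₂ (0, 1)).differentiable one_ne_zero q).hasFDerivAt).fderiv
      have e' : fderiv ℝ Q q = _ := this
      rw [e']
      simp only [ContinuousLinearMap.add_apply, ContinuousLinearMap.smul_apply, smul_eq_mul]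
      ring
    have e2 : fderiv ℝ P q (0, 1) = F q * fderiv ℝ (fun q => fderiv ℝ g₂ q (1, 0)) q (0, 1)
        + fderiv ℝ F q (0, 1) * fderiv ℝ g₂ q (1, 0) := by
      have := ((hFc.differentiable one_ne_zero q).hasFDerivAt.mul
        ((hd₂ (1, 0)).differentiable one_ne_zero q).hasFDerivAt).fderiv
      have e' : fderiv ℝ P q = _ := this
      rw [e']
      simp only [ContinuousLinearMap.add_apply, ContinuousLinearMap.smul_apply, smul_eq_mul]
      ring
    rw [e1, e2, hFd, hFd, hsymm q]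
    simp only [jac]
    ring
  have hpos : ∀ q, 0 ≤ fderiv ℝ Q q (1, 0) - fderiv ℝ P q (0, 1) := by
    intro q
    rw [hcurl q]
    by_cases c₁ : |g₁ q| < δ
    · by_cases c₂ : |g₂ q| < δ
      · exact mul_nonneg (mul_nonneg (bmp_nonneg _ _) (bmp_nonneg _ _)) (hJ q c₁ c₂)
      · rw [bmp_zero hδ (not_lt.1 c₂)]
        simp
    · rw [bmp_zero hδ (not_lt.1 c₁)]
      simp
  have hFb : ∀ q, |F q| ≤ 1 := by
    intro q
    simp only [hF, abs_mul]
    have a1 := (abs_Bmp_le δ (g₁ q)).trans (hb q)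
    have a2 : |bmp δ (g₂ q)| ≤ 1 := by
      rw [abs_of_nonneg (bmp_nonneg _ _)]
      exact bmp_le_one _ _
    calc |Bmp δ (g₁ q)| * |bmp δ (g₂ q)| ≤ 1 * 1 :=
          mul_le_mul a1 a2 (abs_nonneg _) zero_le_one
      _ = 1 := one_mul 1
  have hPb : ∀ q : ℝ × ℝ, 1 ≤ ‖q‖ → |P q| ≤ C / ‖q‖ ^ 2 := by
    intro q hq
    have := hdec q (1, 0) hq
    have hn : ‖((1 : ℝ), (0 : ℝ))‖ = 1 := by simp [Prod.norm_def]
    rw [hn, mul_one] at this
    simp only [hP, abs_mul]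
    calc |F q| * |fderiv ℝ g₂ q (1, 0)| ≤ 1 * |fderiv ℝ g₂ q (1, 0)| :=
          mul_le_mul_of_nonneg_right (hFb q) (abs_nonneg _)
      _ ≤ _ := by rw [one_mul]; exact this
  have hQb : ∀ q : ℝ × ℝ, 1 ≤ ‖q‖ → |Q q| ≤ C / ‖q‖ ^ 2 := by
    intro q hq
    have := hdec q (0, 1) hq
    have hn : ‖((0 : ℝ), (1 : ℝ))‖ = 1 := by simp [Prod.norm_def]
    rw [hn, mul_one] at this
    simp only [hQ, abs_mul]
    calc |F q| * |fderiv ℝ g₂ q (0, 1)| ≤ 1 * |fderiv ℝ g₂ q (0, 1)| :=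
          mul_le_mul_of_nonneg_right (hFb q) (abs_nonneg _)
      _ ≤ _ := by rw [one_mul]; exact this
  have hz := stokes_plane P Q hPc hQc hpos C hPb hQb p
  rw [hcurl p] at hz
  rcases mul_eq_zero.1 hz with h | h
  · rcases mul_eq_zero.1 h with h | h
    · exact absurd h (bmp_pos hp₁).ne'
    · exact absurd h (bmp_pos hp₂).ne'
  · exact h

end Pool.Agent.Helper82.AC
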