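import Pool.Agent.Helper82.AC.Symp
import Pool.Agent.Helper82.AC.Stokes

/-!
# Pseudoholomorphic maps to the product of two spheres
-/

open scoped Manifold ContDiff Topology RealInnerProductSpace
open Set Metric Module

noncomputable section

namespace Pool.Agent.Helper82.AC

attribute [local instance] fact3

/-- The ambient expression of a map to `S² × S²`. -/
def amb (f : ℂ → S2 × S2) (z : ℂ) : E3 × E3 := emb (f z)

lemma contDiff_amb {f : ℂ → S2 × S2} (hf : ContMDiff 𝓘(ℝ, ℂ) IM ∞ f) :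
    ContDiff ℝ ∞ (amb f) := (contMDiff_emb.comp hf).contDiff

lemma fderiv_amb {f : ℂ → S2 × S2} (hf : ContMDiff 𝓘(ℝ, ℂ) IM ∞ f) (z v : ℂ) :
    fderiv ℝ (amb f) z v = DE (f z) (mfderiv 𝓘(ℝ, ℂ) IM f z v) := by
  have h1 : HasMFDerivAt IM 𝓘(ℝ, E3 × E3) emb (f z) (DE (f z)) :=
    (contMDiff_emb.mdifferentiable (by simp) _).hasMFDerivAt
  have h2 : MDifferentiableAt 𝓘(ℝ, ℂ) IM f z := hf.mdifferentiable (by simp) z
  have h3 := (h1.comp z h2.hasMFDerivAt).mfderiv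
  rw [← mfderiv_eq_fderiv]
  exact congrArg (fun L : ℂ →L[ℝ] E3 × E3 => L v) h3

variable {c s₁ s₂ : E3 × E3 → ℝ} {hc : ContDiff ℝ ∞ c} {h₁ : ContDiff ℝ ∞ s₁}
  {h₂ : ContDiff ℝ ∞ s₂} {hu : Unimod c s₁ s₂}

lemma hol_amb {f : ℂ → S2 × S2} (hf : IsHolomorphic (mkJ c s₁ s₂ hc h₁ h₂ hu) f) (z v : ℂ) :
    fderiv ℝ (amb f) z (Complex.I * v) = Aamb c s₁ s₂ (amb f z) (fderiv ℝ (amb f) z v) := by
  rw [fderiv_amb hf.1, fderiv_amb hf.1]
  refine (congrArg (DE (f z)) (hf.2 z v)).trans ?_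
  exact DE_Jfun (f z) _

lemma hol_of_amb {f : ℂ → S2 × S2} (hf : ContMDiff 𝓘(ℝ, ℂ) IM ∞ f)
    (h : ∀ z v : ℂ, fderiv ℝ (amb f) z (Complex.I * v)
      = Aamb c s₁ s₂ (amb f z) (fderiv ℝ (amb f) z v)) :
    IsHolomorphic (mkJ c s₁ s₂ hc h₁ h₂ hu) f := by
  refine ⟨hf, fun z v => DE_injective (f z) ?_⟩
  have h3 := h z v
  rw [fderiv_amb hf, fderiv_amb hf] at h3
  refine h3.trans ?_
  exact (DE_Jfun (f z) _).symm

/-- Decay of the derivative of a map which extends to the sphere. -/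
lemma decay (φ ψ : ℂ → E3 × E3) (hψ : ContDiff ℝ ∞ ψ) (h : ∀ z : ℂ, z ≠ 0 → φ z = ψ z⁻¹) :
    ∃ C : ℝ, 0 ≤ C ∧ ∀ z : ℂ, 1 ≤ ‖z‖ → ‖fderiv ℝ φ z‖ ≤ C / ‖z‖ ^ 2 := by
  have hcont : Continuous (fderiv ℝ ψ) := hψ.continuous_fderiv (by simp)
  obtain ⟨C, hC⟩ := (isCompact_closedBall (0 : ℂ) 1).exists_bound_of_continuousOn hcont.continuousOn
  refine ⟨C, (norm_nonneg _).trans (hC 0 (by simp)), fun z hz => ?_⟩
  have hz0 : z ≠ 0 := by
    intro h0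
    rw [h0, norm_zero] at hz
    exact absurd hz (by norm_num)
  have hev : φ =ᶠ[𝓝 z] fun z => ψ z⁻¹ := by
    filter_upwards [isOpen_ne.mem_nhds hz0] with w hw using h w hw
  have hinv : HasFDerivAt (fun z : ℂ => z⁻¹)
      ((ContinuousLinearMap.toSpanSingleton ℂ (-(z ^ 2)⁻¹) : ℂ →L[ℂ] ℂ).restrictScalars ℝ) z :=
    ((hasDerivAt_inv hz0).hasFDerivAt).restrictScalars ℝ
  have hcomp := ((hψ.differentiable (by simp) z⁻¹).hasFDerivAt.comp z hinv).fderiv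
  rw [hev.fderiv_eq]
  have e : (fun z => ψ z⁻¹) = ψ ∘ (fun z : ℂ => z⁻¹) := rfl
  rw [e, hcomp]
  refine (ContinuousLinearMap.opNorm_comp_le _ _).trans ?_
  have hn : ‖(ContinuousLinearMap.toSpanSingleton ℂ (-(z ^ 2)⁻¹) : ℂ →L[ℂ] ℂ).restrictScalars ℝ‖
      ≤ 1 / ‖z‖ ^ 2 := by
    refine ContinuousLinearMap.opNorm_le_bound _ (by positivity) fun w => ?_
    simp
    rw [mul_comm]
  have hCz := hC z⁻¹ (by
    simp only [mem_closedBall, dist_zero_right, norm_inv]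
    exact inv_le_one_of_one_le₀ hz)
  calc ‖fderiv ℝ ψ z⁻¹‖ * _ ≤ C * (1 / ‖z‖ ^ 2) :=
        mul_le_mul hCz hn (norm_nonneg _) ((norm_nonneg _).trans hCz)
    _ = C / ‖z‖ ^ 2 := by ring

end Pool.Agent.Helper82.AC
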