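import Pool.Agent.Helper82.AC.Torus

/-!
# No rational curve passes through the points of the torus
-/

open scoped Manifold ContDiff Topology RealInnerProductSpace
open Set Metric Module

noncomputable section

namespace Pool.Agent.Helper82.AC

attribute [local instance] fact3

/-- Both heights vanish at the point `p`. -/
def InTorus (p : S2 × S2) : Prop := (p.1 : E3) 2 = 0 ∧ (p.2 : E3) 2 = 0

lemma const_of_hit {f f' : ℂ → S2 × S2} (hf : IsHolomorphic J1 f) (hf' : IsHolomorphic J1 f')
    (hff' : ∀ z : ℂ, z ≠ 0 → f z = f' z⁻¹) {z₀ : ℂ} (h : InTorus (f z₀)) (z : ℂ) : f z = f z₀ :=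
  torus_const hf hf' hff' (fun z => heights_zero hf hf' hff' h.1 h.2 z) z z₀

lemma invChart_zero : invChart 0 = OnePoint.infty := by simp [invChart]

lemma invChart_of_ne {w : ℂ} (h : w ≠ 0) : invChart w = ((w⁻¹ : ℂ) : OnePoint ℂ) := by
  simp [invChart, h]

/-- A pseudoholomorphic sphere which meets the torus is constant. -/
lemma sphere_const {u : RiemannSphere → S2 × S2} (hu : IsHolomorphicSphere J1 u)
    {ζ₀ : RiemannSphere} (h : InTorus (u ζ₀)) (ζ : RiemannSphere) : u ζ = u ζ₀ := by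
  obtain ⟨hf, hf'⟩ := hu
  have e1 : ∀ z : ℂ, z ≠ 0 → (fun z : ℂ => u (z : OnePoint ℂ)) z =
      (fun w : ℂ => u (invChart w)) z⁻¹ := by
    intro z hz
    simp only [invChart_of_ne (inv_ne_zero hz), inv_inv]
  have e2 : ∀ z : ℂ, z ≠ 0 → (fun w : ℂ => u (invChart w)) z =
      (fun z : ℂ => u (z : OnePoint ℂ)) z⁻¹ := by
    intro z hz
    simp only [invChart_of_ne hz]
  have key1 : ∀ z₀ : ℂ, InTorus (u (z₀ : OnePoint ℂ)) → ∀ z : ℂ,
      u (z : OnePoint ℂ) = u (z₀ : OnePoint ℂ) := fun z₀ h0 z => const_of_hit hf hf' e1 h0 z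
  have key2 : ∀ w₀ : ℂ, InTorus (u (invChart w₀)) → ∀ w : ℂ,
      u (invChart w) = u (invChart w₀) := fun w₀ h0 w => const_of_hit hf' hf e2 h0 w
  have i1 : invChart 1 = ((1 : ℂ) : OnePoint ℂ) := by
    rw [invChart_of_ne one_ne_zero, inv_one]
  -- the value at `1` lies in the torus
  have h1 : u ζ₀ = u ((1 : ℂ) : OnePoint ℂ) := by
    induction ζ₀ using OnePoint.rec with
    | infty =>
      rw [← invChart_zero] at h ⊢
      rw [← i1]
      exact (key2 0 h 1).symm
    | coe z₀ => exact (key1 z₀ h 1).symm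
  rw [h1] at h ⊢
  induction ζ using OnePoint.rec with
  | infty =>
    rw [← i1] at h ⊢
    rw [← invChart_zero]
    exact key2 1 h 0
  | coe z => exact key1 1 h z

/-- No rational curve passes through the points of the torus. -/
theorem no_curve {p : S2 × S2} (hp : InTorus p) {C : Set (S2 × S2)} (hC : IsRationalCurve J1 C) :
    p ∉ C := by
  rintro hpC
  obtain ⟨T, u, hu, hnode, ⟨i₀, a, b, hab⟩, rfl⟩ := hC
  obtain ⟨i, ζ, hζ⟩ := mem_iUnion.1 hpC
  have hi : ∀ ξ, u i ξ = p := by
    intro ξ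
    rw [← hζ] at hp ⊢
    exact sphere_const (hu i) hp ξ
  have hall : ∀ j, ∀ ξ, u j ξ = p := by
    intro j
    have hr : Relation.ReflTransGen T.graph.Adj i j :=
      (SimpleGraph.reachable_iff_reflTransGen i j).1 (T.isTree.connected.preconnected i j)
    induction hr with
    | refl => exact hi
    | @tail j k _ hjk ih =>
      intro ξ
      have e : u k (T.node k j) = p := by rw [← hnode j k hjk, ih]
      rw [← e] at hp ⊢
      exact sphere_const (hu k) hp ξ
  exact hab (by rw [hall, hall])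

end Pool.Agent.Helper82.AC
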