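import Mathlib

/-!
# Pull-back of a 2-form with linear coefficients
-/

open scoped ContDiff Topology

noncomputable section

namespace Pool.Agent.Helper82.AC

variable {E V : Type} [NormedAddCommGroup E] [NormedSpace ℝ E]
  [NormedAddCommGroup V] [NormedSpace ℝ V]

/-- The pull-back of the 2-form `O` with linear coefficients by the map `F`. -/
def pull (O : V →L[ℝ] V →L[ℝ] V →L[ℝ] ℝ) (F : E → V) (y : E) : E →L[ℝ] E →L[ℝ] ℝ :=
  (O (F y)).bilinearComp (fderiv ℝ F y) (fderiv ℝ F y)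

lemma pull_apply (O : V →L[ℝ] V →L[ℝ] V →L[ℝ] ℝ) (F : E → V) (y a b : E) :
    pull O F y a b = O (F y) (fderiv ℝ F y a) (fderiv ℝ F y b) := rfl

lemma contDiffOn_pull [FiniteDimensional ℝ E] (O : V →L[ℝ] V →L[ℝ] V →L[ℝ] ℝ) {F : E → V}
    {s : Set E} (hs : IsOpen s) (hF : ContDiffOn ℝ ∞ F s) : ContDiffOn ℝ ∞ (pull O F) s := by
  have hF' : ContDiffOn ℝ ∞ (fderiv ℝ F) s := hF.fderiv_of_isOpen hs (by simp)
  have hO : ContDiff ℝ ∞ (fun v => O v) := by fun_prop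
  have h1 : ContDiffOn ℝ ∞ (fun y => O (F y)) s := hO.comp_contDiffOn hF
  rw [contDiffOn_clm_apply]
  intro a
  rw [contDiffOn_clm_apply]
  intro b
  have h2 : ContDiffOn ℝ ∞ (fun y => O (F y) (fderiv ℝ F y a)) s :=
    h1.clm_apply (hF'.clm_apply contDiffOn_const)
  exact h2.clm_apply (hF'.clm_apply contDiffOn_const)

lemma fderiv_pull [FiniteDimensional ℝ E] (O : V →L[ℝ] V →L[ℝ] V →L[ℝ] ℝ) {F : E → V} {s : Set E} (hs : IsOpen s)
    (hF : ContDiffOn ℝ ∞ F s) {y : E} (hy : y ∈ s) (a b c : E) :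
    fderiv ℝ (pull O F) y a b c = O (fderiv ℝ F y a) (fderiv ℝ F y b) (fderiv ℝ F y c)
      + O (F y) (fderiv ℝ (fderiv ℝ F) y a b) (fderiv ℝ F y c)
      + O (F y) (fderiv ℝ F y b) (fderiv ℝ (fderiv ℝ F) y a c) := by
  have hnb := hs.mem_nhds hy
  have hF1 : ContDiffOn ℝ ∞ (fderiv ℝ F) s := hF.fderiv_of_isOpen hs (by simp)
  have hG : HasFDerivAt (pull O F) (fderiv ℝ (pull O F) y) y :=
    (((contDiffOn_pull O hs hF).contDiffAt hnb).differentiableAt (by simp)).hasFDerivAt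
  have hF0 : HasFDerivAt F (fderiv ℝ F y) y :=
    ((hF.contDiffAt hnb).differentiableAt (by simp)).hasFDerivAt
  have hF' : HasFDerivAt (fderiv ℝ F) (fderiv ℝ (fderiv ℝ F) y) y :=
    ((hF1.contDiffAt hnb).differentiableAt (by simp)).hasFDerivAt
  have e1 := (hG.clm_apply (hasFDerivAt_const b y)).clm_apply (hasFDerivAt_const c y)
  have hb := hF'.clm_apply (hasFDerivAt_const b y)
  have hc := hF'.clm_apply (hasFDerivAt_const c y)
  have hO : HasFDerivAt (fun y => O (F y)) (O.comp (fderiv ℝ F y)) y :=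
    HasFDerivAt.comp (F := V) (G := V →L[ℝ] V →L[ℝ] ℝ) (g := fun p => O p) y
      (ContinuousLinearMap.hasFDerivAt (F := V →L[ℝ] V →L[ℝ] ℝ) O) hF0
  have e2 := (hO.clm_apply hb).clm_apply hc
  have e3 := e1.unique e2
  have e4 := congrArg (fun L : E →L[ℝ] ℝ => L a) e3
  simp only [ContinuousLinearMap.comp_apply, add_apply, ContinuousLinearMap.flip_apply,
    zero_apply, map_zero, zero_add] at e4
  rw [e4]
  ring

/-- The exterior derivative commutes with the pull-back. -/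
lemma cyc_pull [FiniteDimensional ℝ E] (O : V →L[ℝ] V →L[ℝ] V →L[ℝ] ℝ)
    (hsw : ∀ u v w, O u v w = - O u w v) {F : E → V} {s : Set E} (hs : IsOpen s)
    (hF : ContDiffOn ℝ ∞ F s) {y : E} (hy : y ∈ s) (a b c : E) :
    fderiv ℝ (pull O F) y a b c + fderiv ℝ (pull O F) y b c a + fderiv ℝ (pull O F) y c a b
    = O (fderiv ℝ F y a) (fderiv ℝ F y b) (fderiv ℝ F y c)
      + O (fderiv ℝ F y b) (fderiv ℝ F y c) (fderiv ℝ F y a)
      + O (fderiv ℝ F y c) (fderiv ℝ F y a) (fderiv ℝ F y b) := by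
  have hsym : IsSymmSndFDerivAt ℝ F y :=
    (hF.contDiffAt (hs.mem_nhds hy)).isSymmSndFDerivAt (by simp; exact WithTop.coe_le_coe.2 le_top)
  rw [fderiv_pull O hs hF hy, fderiv_pull O hs hF hy, fderiv_pull O hs hF hy]
  rw [hsym.eq b a, hsym.eq c a, hsym.eq c b,
    hsw (F y) (fderiv ℝ F y b) (fderiv ℝ (fderiv ℝ F) y a c),
    hsw (F y) (fderiv ℝ F y c) (fderiv ℝ (fderiv ℝ F) y a b),
    hsw (F y) (fderiv ℝ F y a) (fderiv ℝ (fderiv ℝ F) y b c)]
  ring

end Pool.Agent.Helper82.AC
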