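import Pool.Agent.Helper82.AC.Hol

/-!
# The product of two spheres is rationally connected
-/

open scoped Manifold ContDiff Topology RealInnerProductSpace
open Set Metric Module

noncomputable section

namespace Pool.Agent.Helper82.AC

attribute [local instance] fact3

/-- `1 + |z|²`. -/
def Nz (z : ℂ) : ℝ := 1 + z.re * z.re + z.im * z.im

lemma Nz_pos (z : ℂ) : 0 < Nz z := by
  have := mul_self_nonneg z.re
  have := mul_self_nonneg z.im
  unfold Nz
  linarith

/-- Stereographic parametrizations of the sphere (for `e = 1` and `e = -1`). -/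
def FF (e : ℝ) (z : ℂ) : E3 :=
  !₂[2 * z.re / Nz z, -e * (2 * z.im) / Nz z, e * (Nz z - 2) / Nz z]

lemma FF_zero (e : ℝ) (z : ℂ) : FF e z 0 = 2 * z.re / Nz z := rfl
lemma FF_one (e : ℝ) (z : ℂ) : FF e z 1 = -e * (2 * z.im) / Nz z := rfl
lemma FF_two (e : ℝ) (z : ℂ) : FF e z 2 = e * (Nz z - 2) / Nz z := rfl

lemma FF_mem {e : ℝ} (he : e * e = 1) (z : ℂ) : FF e z ∈ sphere (0 : E3) 1 := by
  rw [mem_sphere_zero_iff_norm]
  have h : ‖FF e z‖ ^ 2 = 1 := by
    rw [← real_inner_self_eq_norm_sq, inner3, FF_zero, FF_one, FF_two]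
    have hN := (Nz_pos z).ne'
    field_simp
    have : Nz z = 1 + z.re * z.re + z.im * z.im := rfl
    have he2 : e ^ 2 = 1 := by rw [pow_two, he]
    rw [he2, this]
    ring
  have h0 := norm_nonneg (FF e z)
  nlinarith

/-- Derivative of `1 + |z|²`. -/
lemma Nz_hasFDerivAt (z : ℂ) : HasFDerivAt Nz
    ((2 * z.re) • Complex.reCLM + (2 * z.im) • Complex.imCLM) z := by
  have r : HasFDerivAt (fun z : ℂ => z.re) Complex.reCLM z := Complex.reCLM.hasFDerivAt
  have i : HasFDerivAt (fun z : ℂ => z.im) Complex.imCLM z := Complex.imCLM.hasFDerivAt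
  have h := ((hasFDerivAt_const (1 : ℝ) z).add (r.mul r)).add (i.mul i)
  refine HasFDerivAt.congr_fderiv h ?_
  ext v
  simp
  ring

/-- The derivative of the stereographic parametrization. -/
def FF' (e : ℝ) (z v : ℂ) : E3 :=
  !₂[(2 * v.re * Nz z - 2 * z.re * (2 * z.re * v.re + 2 * z.im * v.im)) / Nz z ^ 2,
    (-e * (2 * v.im) * Nz z - -e * (2 * z.im) * (2 * z.re * v.re + 2 * z.im * v.im)) / Nz z ^ 2,
    (e * (2 * z.re * v.re + 2 * z.im * v.im) * Nz z
      - e * (Nz z - 2) * (2 * z.re * v.re + 2 * z.im * v.im)) / Nz z ^ 2]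

lemma contDiff_Nz : ContDiff ℝ ∞ Nz :=
  (contDiff_const.add (Complex.reCLM.contDiff.mul Complex.reCLM.contDiff)).add
    (Complex.imCLM.contDiff.mul Complex.imCLM.contDiff)

lemma contDiff_FF (e : ℝ) : ContDiff ℝ ∞ (FF e) := by
  have hne : ∀ z, Nz z ≠ 0 := fun z => (Nz_pos z).ne'
  rw [contDiff_euclidean]
  intro i
  fin_cases i
  · exact (contDiff_const.mul Complex.reCLM.contDiff).div contDiff_Nz hne
  · exact (contDiff_const.mul (contDiff_const.mul Complex.imCLM.contDiff)).div contDiff_Nz hne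
  · exact (contDiff_const.mul (contDiff_Nz.sub contDiff_const)).div contDiff_Nz hne

lemma fderiv_coord {F : ℂ → E3} (hF : ContDiff ℝ ∞ F) (i : Fin 3) (z v : ℂ) :
    fderiv ℝ F z v i = fderiv ℝ (fun z => F z i) z v := by
  have h1 := (hF.differentiable (by simp) z).hasFDerivAt
  have h2 : HasFDerivAt (fun z => F z i) ((EuclideanSpace.proj (𝕜 := ℝ) i).comp (fderiv ℝ F z)) z :=
    (EuclideanSpace.proj (𝕜 := ℝ) i).hasFDerivAt.comp z h1
  rw [h2.fderiv]
  rfl

lemma fderiv_div' {n d : ℂ → ℝ} {n' d' : ℂ →L[ℝ] ℝ} {z : ℂ} (hn : HasFDerivAt n n' z)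
    (hd : HasFDerivAt d d' z) (h0 : d z ≠ 0) (v : ℂ) :
    fderiv ℝ (fun z => n z / d z) z v = (n' v * d z - n z * d' v) / d z ^ 2 := by
  have hinv : HasFDerivAt (fun z => (d z)⁻¹) ((-(d z ^ 2)⁻¹) • d') z :=
    (hasDerivAt_inv h0).comp_hasFDerivAt z hd
  have h := (hn.mul hinv).fderiv
  have e : (fun z => n z / d z) = fun z => n z * (d z)⁻¹ := funext fun z => div_eq_mul_inv _ _
  have h' : fderiv ℝ (fun z => n z / d z) z = n z • -(d z ^ 2)⁻¹ • d' + (d z)⁻¹ • n' := by
    rw [e]; exact h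
  rw [h']
  simp only [add_apply, smul_apply, smul_eq_mul]
  field_simp
  ring

lemma fderiv_FF (e : ℝ) (z v : ℂ) : fderiv ℝ (FF e) z v = FF' e z v := by
  have r : HasFDerivAt (fun z : ℂ => z.re) Complex.reCLM z := Complex.reCLM.hasFDerivAt
  have i : HasFDerivAt (fun z : ℂ => z.im) Complex.imCLM z := Complex.imCLM.hasFDerivAt
  have hN := Nz_hasFDerivAt z
  have h0 : Nz z ≠ 0 := (Nz_pos z).ne'
  ext j
  rw [fderiv_coord (contDiff_FF e)]
  fin_cases j
  · change fderiv ℝ (fun z => 2 * z.re / Nz z) z v =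
      (2 * v.re * Nz z - 2 * z.re * (2 * z.re * v.re + 2 * z.im * v.im)) / Nz z ^ 2
    rw [fderiv_div' (r.const_mul 2) hN h0]
    simp
  · change fderiv ℝ (fun z => -e * (2 * z.im) / Nz z) z v =
      (-e * (2 * v.im) * Nz z - -e * (2 * z.im) * (2 * z.re * v.re + 2 * z.im * v.im)) / Nz z ^ 2
    rw [fderiv_div' ((i.const_mul 2).const_mul (-e)) hN h0]
    simp
  · change fderiv ℝ (fun z => e * (Nz z - 2) / Nz z) z v =
      (e * (2 * z.re * v.re + 2 * z.im * v.im) * Nz z
      - e * (Nz z - 2) * (2 * z.re * v.re + 2 * z.im * v.im)) / Nz z ^ 2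
    rw [fderiv_div' ((hN.sub_const 2).const_mul e) hN h0]
    simp
    ring

/-- The stereographic parametrization is holomorphic. -/
lemma FF_hol {e : ℝ} (he : e * e = 1) (z v : ℂ) :
    FF' e z (Complex.I * v) = cr (FF e z) (FF' e z v) := by
  have h0 : Nz z ≠ 0 := (Nz_pos z).ne'
  have hN : Nz z = 1 + z.re * z.re + z.im * z.im := rfl
  have hre : (Complex.I * v).re = -v.im := by simp
  have him : (Complex.I * v).im = v.re := by simp
  ext j
  fin_cases j
  · change (2 * (Complex.I * v).re * Nz z - 2 * z.re * (2 * z.re * (Complex.I * v).re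
        + 2 * z.im * (Complex.I * v).im)) / Nz z ^ 2 =
      (-e * (2 * z.im) / Nz z) * ((e * (2 * z.re * v.re + 2 * z.im * v.im) * Nz z
        - e * (Nz z - 2) * (2 * z.re * v.re + 2 * z.im * v.im)) / Nz z ^ 2)
      - (e * (Nz z - 2) / Nz z) * ((-e * (2 * v.im) * Nz z - -e * (2 * z.im)
        * (2 * z.re * v.re + 2 * z.im * v.im)) / Nz z ^ 2)
    rw [hre, him]
    field_simp
    have he2 : e ^ 2 = 1 := by rw [pow_two, he]
    rw [he2, hN]
    ring
  · change (-e * (2 * (Complex.I * v).im) * Nz z - -e * (2 * z.im) *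
        (2 * z.re * (Complex.I * v).re + 2 * z.im * (Complex.I * v).im)) / Nz z ^ 2 =
      (e * (Nz z - 2) / Nz z) * ((2 * v.re * Nz z - 2 * z.re * (2 * z.re * v.re
        + 2 * z.im * v.im)) / Nz z ^ 2)
      - (2 * z.re / Nz z) * ((e * (2 * z.re * v.re + 2 * z.im * v.im) * Nz z
        - e * (Nz z - 2) * (2 * z.re * v.re + 2 * z.im * v.im)) / Nz z ^ 2)
    rw [hre, him]
    field_simp
    rw [hN]
    ring
  · change (e * (2 * z.re * (Complex.I * v).re + 2 * z.im * (Complex.I * v).im) * Nz z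
      - e * (Nz z - 2) * (2 * z.re * (Complex.I * v).re + 2 * z.im * (Complex.I * v).im))
        / Nz z ^ 2 =
      (2 * z.re / Nz z) * ((-e * (2 * v.im) * Nz z - -e * (2 * z.im)
        * (2 * z.re * v.re + 2 * z.im * v.im)) / Nz z ^ 2)
      - (-e * (2 * z.im) / Nz z) * ((2 * v.re * Nz z - 2 * z.re * (2 * z.re * v.re
        + 2 * z.im * v.im)) / Nz z ^ 2)
    rw [hre, him]
    field_simp
    rw [hN]
    ring

/-- The stereographic parametrization as a map to the sphere. -/
def FS (e : ℝ) (he : e * e = 1) (z : ℂ) : S2 := ⟨FF e z, FF_mem he z⟩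

lemma contMDiff_FS (e : ℝ) (he : e * e = 1) : ContMDiff 𝓘(ℝ, ℂ) (𝓡 2) ∞ (FS e he) :=
  (contDiff_FF e).contMDiff.codRestrict_sphere (FF_mem he)

lemma contDiff_FF_left (e : ℝ) (b : E3) : ContDiff ℝ ∞ (fun z => (FF e z, b)) :=
  (contDiff_FF e).prodMk contDiff_const

lemma hol_left {e : ℝ} (he : e * e = 1) (b : S2) : IsHolomorphic J0 (fun z => (FS e he z, b)) := by
  refine hol_of_amb ((contMDiff_FS e he).prodMk contMDiff_const) fun z v => ?_
  have hd : ∀ w, fderiv ℝ (amb fun z => (FS e he z, b)) z w = (FF' e z w, 0) := by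
    intro w
    have h : HasFDerivAt (fun z => (FF e z, (b : E3))) ((fderiv ℝ (FF e) z).prod 0) z :=
      ((contDiff_FF e).differentiable (by simp) z).hasFDerivAt.prodMk (hasFDerivAt_const _ _)
    have h' : fderiv ℝ (amb fun z => (FS e he z, b)) z = (fderiv ℝ (FF e) z).prod 0 := h.fderiv
    rw [h', ← fderiv_FF]
    rfl
  rw [hd, hd, FF_hol he]
  apply Prod.ext
  · simp [Aamb, Afst, amb, emb, FS]
  · ext i
    fin_cases i <;> simp [Aamb, Asnd, cr]

lemma hol_right {e : ℝ} (he : e * e = 1) (a : S2) : IsHolomorphic J0 (fun z => (a, FS e he z)) := by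
  refine hol_of_amb (contMDiff_const.prodMk (contMDiff_FS e he)) fun z v => ?_
  have hd : ∀ w, fderiv ℝ (amb fun z => (a, FS e he z)) z w = (0, FF' e z w) := by
    intro w
    have h : HasFDerivAt (fun z => ((a : E3), FF e z))
        ((0 : ℂ →L[ℝ] E3).prod (fderiv ℝ (FF e) z)) z :=
      (hasFDerivAt_const _ _).prodMk ((contDiff_FF e).differentiable (by simp) z).hasFDerivAt
    have h' : fderiv ℝ (amb fun z => (a, FS e he z)) z =
      (0 : ℂ →L[ℝ] E3).prod (fderiv ℝ (FF e) z) := h.fderiv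
    rw [h', ← fderiv_FF]
    rfl
  rw [hd, hd, FF_hol he]
  apply Prod.ext
  · ext i
    fin_cases i <;> simp [Aamb, Afst, cr]
  · simp [Aamb, Asnd, amb, emb, FS]

lemma one_mul_one' : (1 : ℝ) * 1 = 1 := one_mul 1
lemma neg_one_mul_neg_one' : (-1 : ℝ) * (-1) = 1 := by norm_num

/-- The parametrization of the sphere by the Riemann sphere. -/
def stp (ζ : RiemannSphere) : S2 :=
  ζ.elim (FS (-1) neg_one_mul_neg_one' 0) (fun z : ℂ => FS 1 one_mul_one' z)

lemma stp_coe (z : ℂ) : stp (z : OnePoint ℂ) = FS 1 one_mul_one' z := rfl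

lemma stp_invChart (w : ℂ) : stp (invChart w) = FS (-1) neg_one_mul_neg_one' w := by
  by_cases hw : w = 0
  · rw [hw]
    simp [invChart]
    rfl
  · rw [invChart, if_neg hw, stp_coe]
    apply Subtype.ext
    have hn : w.re * w.re + w.im * w.im ≠ 0 := by
      intro h
      apply hw
      have h1 := mul_self_nonneg w.re
      have h2 := mul_self_nonneg w.im
      apply Complex.ext
      · exact mul_self_eq_zero.1 (by linarith)
      · exact mul_self_eq_zero.1 (by linarith)
    obtain ⟨n, hn'⟩ : ∃ n, n = w.re * w.re + w.im * w.im := ⟨_, rfl⟩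
    rw [← hn'] at hn
    have h1 : (w⁻¹).re = w.re / n := by
      rw [Complex.inv_re, Complex.normSq_apply, hn']
    have h2 : (w⁻¹).im = -w.im / n := by
      rw [Complex.inv_im, Complex.normSq_apply, hn']
    have hN : Nz w⁻¹ = (1 + n) / n := by
      unfold Nz
      rw [h1, h2]
      field_simp
      linear_combination -hn'
    have hN' : Nz w = 1 + n := by
      rw [hn']
      unfold Nz
      ring
    have hp : 1 + n ≠ 0 := by
      rw [← hN']
      exact (Nz_pos w).ne'
    ext j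
    fin_cases j
    · change 2 * (w⁻¹).re / Nz w⁻¹ = 2 * w.re / Nz w
      rw [h1, hN, hN']
      field_simp
    · change -1 * (2 * (w⁻¹).im) / Nz w⁻¹ = - -1 * (2 * w.im) / Nz w
      rw [h2, hN, hN']
      field_simp
    · change 1 * (Nz w⁻¹ - 2) / Nz w⁻¹ = -1 * (Nz w - 2) / Nz w
      rw [hN, hN']
      field_simp
      ring

lemma stp_surjective : Function.Surjective stp := by
  intro s
  have hs := sphere_eq s
  by_cases h : (s : E3) 2 = 1
  · refine ⟨OnePoint.infty, ?_⟩
    have h0 : (s : E3) 0 = 0 := by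
      rw [h] at hs
      have := mul_self_nonneg ((s : E3) 0)
      have := mul_self_nonneg ((s : E3) 1)
      exact mul_self_eq_zero.1 (by linarith)
    have h1 : (s : E3) 1 = 0 := by
      rw [h] at hs
      have := mul_self_nonneg ((s : E3) 0)
      have := mul_self_nonneg ((s : E3) 1)
      exact mul_self_eq_zero.1 (by linarith)
    apply Subtype.ext
    ext j
    fin_cases j
    · change 2 * (0 : ℂ).re / Nz 0 = (s : E3) 0
      rw [h0]; simp
    · change - -1 * (2 * (0 : ℂ).im) / Nz 0 = (s : E3) 1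
      rw [h1]; simp
    · change -1 * (Nz 0 - 2) / Nz 0 = (s : E3) 2
      rw [h]; simp [Nz]; norm_num
  · have hd : 1 - (s : E3) 2 ≠ 0 := fun h' => h (by linarith)
    have hp : (1 : ℝ) + (s : E3) 2 = (1 + (s : E3) 2) := rfl
    refine ⟨((⟨(s : E3) 0 / (1 - (s : E3) 2), -(s : E3) 1 / (1 - (s : E3) 2)⟩ : ℂ) : OnePoint ℂ), ?_⟩
    have hN : Nz (⟨(s : E3) 0 / (1 - (s : E3) 2), -(s : E3) 1 / (1 - (s : E3) 2)⟩ : ℂ)
        = 2 / (1 - (s : E3) 2) := by
      change 1 + (s : E3) 0 / (1 - (s : E3) 2) * ((s : E3) 0 / (1 - (s : E3) 2)) +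
        -(s : E3) 1 / (1 - (s : E3) 2) * (-(s : E3) 1 / (1 - (s : E3) 2)) = _
      field_simp
      linear_combination hs
    rw [stp_coe]
    apply Subtype.ext
    ext j
    fin_cases j
    · change 2 * ((s : E3) 0 / (1 - (s : E3) 2)) / Nz _ = (s : E3) 0
      rw [hN]; field_simp
    · change -1 * (2 * (-(s : E3) 1 / (1 - (s : E3) 2))) / Nz _ = (s : E3) 1
      rw [hN]; field_simp
    · change 1 * (Nz _ - 2) / Nz _ = (s : E3) 2
      rw [hN]; field_simp; ring

lemma sphere_left (b : S2) : IsHolomorphicSphere J0 (fun ζ => (stp ζ, b)) := by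
  constructor
  · exact hol_left one_mul_one' b
  · simp only [stp_invChart]
    exact hol_left neg_one_mul_neg_one' b

lemma sphere_right (a : S2) : IsHolomorphicSphere J0 (fun ζ => (a, stp ζ)) := by
  constructor
  · exact hol_right one_mul_one' a
  · simp only [stp_invChart]
    exact hol_right neg_one_mul_neg_one' a

end Pool.Agent.Helper82.AC
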