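import Pool.Agent.Helper82.AC.RC

/-!
# The product of two spheres is uniruled and rationally connected
-/

open scoped Manifold ContDiff Topology RealInnerProductSpace
open Set Metric Module

noncomputable section

namespace Pool.Agent.Helper82.AC

attribute [local instance] fact3

lemma isTree_top2 : (⊤ : SimpleGraph (Fin (1 + 1))).IsTree := by
  rw [SimpleGraph.isTree_iff_connected_and_card]
  refine ⟨SimpleGraph.connected_top, ?_⟩
  rw [Nat.card_eq_fintype_card, Nat.card_eq_fintype_card]
  simp only [SimpleGraph.edgeSet_top, Fintype.card_fin]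
  decide

/-- Two copies of the Riemann sphere, glued at one point. -/
def twoSpheres (ζ₁ ζ₂ : RiemannSphere) : NodalCurve where
  m := 1
  graph := ⊤
  isTree := isTree_top2
  node := fun i _ => if i = 0 then ζ₁ else ζ₂
  node_injective := by
    intro i j k hij hik _
    simp only [SimpleGraph.top_adj] at hij hik
    clear * - hij hik
    revert hij hik
    revert i j k
    decide

lemma isConnected_S2 : IsConnected (univ : Set S2) := by
  have h : IsConnected (sphere (0 : E3) 1) := by
    apply isConnected_sphere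
    · rw [← Module.finrank_eq_rank]
      simp [E3]
    · norm_num
  have h' : ConnectedSpace S2 := isConnected_iff_connectedSpace.1 h
  exact isConnected_univ

/-- Two different points of the sphere. -/
lemma exists_ne_S2 : ∃ s t : S2, s ≠ t := by
  refine ⟨stp (0 : ℂ), stp OnePoint.infty, fun h => ?_⟩
  have h2 : (stp (0 : ℂ) : E3) 2 = (stp OnePoint.infty : E3) 2 := by rw [h]
  have e1 : (stp (0 : ℂ) : E3) 2 = 1 * (Nz 0 - 2) / Nz 0 := rfl
  have e2 : (stp OnePoint.infty : E3) 2 = -1 * (Nz 0 - 2) / Nz 0 := rfl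
  rw [e1, e2] at h2
  simp [Nz] at h2
  norm_num at h2

/-- The maps on the two components. -/
def crossMap (b c : S2) (i : Fin 2) (ζ : RiemannSphere) : S2 × S2 :=
  if i = 0 then (stp ζ, b) else (c, stp ζ)

lemma crossMap_zero (b c : S2) (ζ : RiemannSphere) : crossMap b c 0 ζ = (stp ζ, b) := by
  simp [crossMap]

lemma crossMap_one (b c : S2) (ζ : RiemannSphere) : crossMap b c 1 ζ = (c, stp ζ) := by
  simp [crossMap]

lemma cross_rational (b c : S2) :
    IsRationalCurve J0 {p : S2 × S2 | p.2 = b ∨ p.1 = c} := by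
  obtain ⟨ζ₁, h₁⟩ := stp_surjective c
  obtain ⟨ζ₂, h₂⟩ := stp_surjective b
  refine ⟨twoSpheres ζ₁ ζ₂, crossMap b c, ?_, ?_, ?_, ?_⟩
  · change ∀ i : Fin 2, IsHolomorphicSphere J0 (crossMap b c i)
    rw [Fin.forall_fin_two]
    constructor
    · have : crossMap b c 0 = fun ζ => (stp ζ, b) := funext fun ζ => crossMap_zero b c ζ
      rw [this]
      exact sphere_left b
    · have : crossMap b c 1 = fun ζ => (c, stp ζ) := funext fun ζ => crossMap_one b c ζ
      rw [this]
      exact sphere_right c
  · change ∀ i j : Fin 2, i ≠ j →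
      crossMap b c i (if i = 0 then ζ₁ else ζ₂) = crossMap b c j (if j = 0 then ζ₁ else ζ₂)
    simp [Fin.forall_fin_two, crossMap, h₁, h₂]
  · obtain ⟨s, t, hst⟩ := exists_ne_S2
    obtain ⟨a, ha⟩ := stp_surjective s
    obtain ⟨a', ha'⟩ := stp_surjective t
    refine ⟨(0 : Fin 2), a, a', ?_⟩
    rw [crossMap_zero, crossMap_zero, ha, ha']
    exact fun h => hst (congrArg Prod.fst h)
  · change _ = ⋃ i : Fin 2, range (crossMap b c i)
    ext ⟨x, y⟩
    rw [mem_iUnion, Fin.exists_fin_two]
    simp only [mem_range, crossMap_zero, crossMap_one, Prod.mk.injEq]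
    constructor
    · rintro (h | h)
      · obtain ⟨a, ha⟩ := stp_surjective x
        exact Or.inl ⟨a, ha, h.symm⟩
      · obtain ⟨a, ha⟩ := stp_surjective y
        exact Or.inr ⟨a, h.symm, ha⟩
    · rintro (⟨a, _, h⟩ | ⟨a, h, _⟩)
      · exact Or.inl h.symm
      · exact Or.inr h.symm

/-- The union of the sphere `S² × {b}` and the sphere `{c} × S²`. -/
lemma curve_cross (b c : S2) :
    IsConnectedRationalCurve J0 {p : S2 × S2 | p.2 = b ∨ p.1 = c} := by
  constructor
  · exact cross_rational b c
  · have hA : IsConnected (range fun s : S2 => (s, b)) := by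
      rw [← image_univ]
      exact isConnected_S2.image _ (by fun_prop)
    have hB : IsConnected (range fun s : S2 => (c, s)) := by
      rw [← image_univ]
      exact isConnected_S2.image _ (by fun_prop)
    have e : {p : S2 × S2 | p.2 = b ∨ p.1 = c} =
        (range fun s : S2 => (s, b)) ∪ (range fun s : S2 => (c, s)) := by
      ext ⟨x, y⟩
      simp [eq_comm]
    rw [e]
    exact IsConnected.union ⟨(c, b), ⟨c, rfl⟩, ⟨b, rfl⟩⟩ hA hB

theorem rationallyConnected_omega : RationallyConnected omega := by
  refine ⟨J0, compatible_J0, fun x y => ⟨_, curve_cross x.2 y.1, Or.inl rfl, Or.inr rfl⟩⟩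

theorem uniruled_omega : Uniruled omega := by
  refine ⟨J0, compatible_J0, fun x => ⟨_, curve_cross x.2 x.1, Or.inl rfl⟩⟩

end Pool.Agent.Helper82.AC
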