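import Mathlib

/-!
# The product of two spheres as an embedded manifold
-/

open scoped Manifold ContDiff Topology RealInnerProductSpace
open Set Metric Module

noncomputable section

namespace Pool.Agent.Helper82.AC

/-- Euclidean three-space. -/
abbrev E3 : Type := EuclideanSpace ℝ (Fin 3)

/-- The unit sphere in Euclidean three-space. -/
abbrev S2 : Type := sphere (0 : E3) 1

/-- The model with corners of `S² × S²`. -/
abbrev IM : ModelWithCorners ℝ (EuclideanSpace ℝ (Fin 2) × EuclideanSpace ℝ (Fin 2))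
    (ModelProd (EuclideanSpace ℝ (Fin 2)) (EuclideanSpace ℝ (Fin 2))) := (𝓡 2).prod (𝓡 2)

theorem fact3 : Fact (finrank ℝ E3 = 2 + 1) := ⟨finrank_euclideanSpace_fin⟩

attribute [local instance] fact3

/-- The north pole. -/
def npole : E3 := EuclideanSpace.single 2 1

lemma norm_npole : ‖npole‖ = 1 := by simp [npole]

/-- The radial projection to the sphere. -/
def nrm (x : E3) : S2 :=
  if h : x = 0 then ⟨npole, by simp [norm_npole]⟩
  else ⟨‖x‖⁻¹ • x, by simp [norm_smul, norm_ne_zero_iff.2 h]⟩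

lemma nrm_coe {x : E3} (h : x ≠ 0) : (nrm x : E3) = ‖x‖⁻¹ • x := by
  simp [nrm, h]

lemma nrm_sphere (x : S2) : nrm (x : E3) = x := by
  have hx : ‖(x : E3)‖ = 1 := by simp
  have h0 : (x : E3) ≠ 0 := by
    intro h
    rw [h, norm_zero] at hx
    exact zero_ne_one hx
  apply Subtype.ext
  rw [nrm_coe h0, hx]
  simp

lemma contMDiffAt_nrm {x : E3} (h : x ≠ 0) : ContMDiffAt 𝓘(ℝ, E3) (𝓡 2) ∞ nrm x := by
  have hev : ∀ᶠ y in 𝓝 x, y ≠ 0 := isOpen_ne.mem_nhds h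
  have hsm : ContDiffAt ℝ ∞ (fun y : E3 => ‖y‖⁻¹ • y) x :=
    ((contDiffAt_id.norm ℝ h).inv (norm_ne_zero_iff.2 h)).smul contDiffAt_id
  have hcoe : (fun y => (nrm y : E3)) =ᶠ[𝓝 x] fun y => ‖y‖⁻¹ • y := by
    filter_upwards [hev] with y hy using nrm_coe hy
  have hsm' : ContDiffAt ℝ ∞ (fun y => (nrm y : E3)) x := hsm.congr_of_eventuallyEq hcoe
  rw [contMDiffAt_iff_target]
  refine ⟨Topology.IsInducing.subtypeVal.continuousAt_iff.2 hsm'.continuousAt, ?_⟩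
  let U : _ ≃ₗᵢ[ℝ] _ :=
    (OrthonormalBasis.fromOrthogonalSpanSingleton (𝕜 := ℝ)
      2 (ne_zero_of_mem_unit_sphere (-(nrm x)))).repr
  have h1 : ContDiffAt ℝ ∞ (stereoToFun (-(nrm x : E3))) (nrm x : E3) := by
    apply (contDiffOn_stereoToFun (v := -(nrm x : E3)) (n := ∞)).contDiffAt
    apply IsOpen.mem_nhds
    · exact isOpen_ne_fun (innerSL ℝ (-(nrm x : E3))).continuous continuous_const
    · have : ‖(nrm x : E3)‖ = 1 := by simp
      simp only [mem_ofPred_eq, map_neg, neg_apply, innerSL_apply_apply,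
        real_inner_self_eq_norm_sq, this]
      norm_num
  have h2 : ContDiffAt ℝ ∞ (fun y => U (stereoToFun (-(nrm x : E3)) (nrm y : E3))) x :=
    U.contDiff.contDiffAt.comp x (ContDiffAt.comp (g := stereoToFun (-(nrm x : E3)))
      (f := fun y => (nrm y : E3)) x h1 hsm')
  exact h2.contMDiffAt

/-- The inclusion of `S² × S²` in `ℝ³ × ℝ³`. -/
def emb (p : S2 × S2) : E3 × E3 := ((p.1 : E3), (p.2 : E3))

/-- The radial projection of `ℝ³ × ℝ³` to `S² × S²`. -/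
def rr (q : E3 × E3) : S2 × S2 := (nrm q.1, nrm q.2)

lemma rr_emb (p : S2 × S2) : rr (emb p) = p := by
  simp [rr, emb, nrm_sphere]

lemma contMDiff_emb : ContMDiff IM 𝓘(ℝ, E3 × E3) ∞ emb :=
  (contMDiff_coe_sphere.comp contMDiff_fst).prodMk_space
    (contMDiff_coe_sphere.comp contMDiff_snd)

lemma sphere_ne_zero (x : S2) : (x : E3) ≠ 0 := by
  intro h
  have hx : ‖(x : E3)‖ = 1 := by simp
  rw [h, norm_zero] at hx
  exact zero_ne_one hx

lemma contMDiffAt_rr (p : S2 × S2) : ContMDiffAt 𝓘(ℝ, E3 × E3) IM ∞ rr (emb p) := by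
  have h1 : ContMDiffAt 𝓘(ℝ, E3 × E3) (𝓡 2) ∞ (fun q : E3 × E3 => nrm q.1) (emb p) :=
    ContMDiffAt.comp (emb p) (g := nrm) (f := Prod.fst) (contMDiffAt_nrm (sphere_ne_zero p.1))
      contDiff_fst.contMDiff.contMDiffAt
  have h2 : ContMDiffAt 𝓘(ℝ, E3 × E3) (𝓡 2) ∞ (fun q : E3 × E3 => nrm q.2) (emb p) :=
    ContMDiffAt.comp (emb p) (g := nrm) (f := Prod.snd) (contMDiffAt_nrm (sphere_ne_zero p.2))
      contDiff_snd.contMDiff.contMDiffAt
  exact h1.prodMk h2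

/-- The differential of the inclusion of the sphere. -/
def Dι (x : S2) : EuclideanSpace ℝ (Fin 2) →L[ℝ] E3 :=
  mfderiv (𝓡 2) 𝓘(ℝ, E3) (Subtype.val : S2 → E3) x

/-- The differential of the inclusion of `S² × S²`. -/
def DE (p : S2 × S2) : EuclideanSpace ℝ (Fin 2) × EuclideanSpace ℝ (Fin 2) →L[ℝ] E3 × E3 :=
  mfderiv IM 𝓘(ℝ, E3 × E3) emb p

/-- The differential of the radial projection. -/
def DR (p : S2 × S2) : E3 × E3 →L[ℝ] EuclideanSpace ℝ (Fin 2) × EuclideanSpace ℝ (Fin 2) :=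
  mfderiv 𝓘(ℝ, E3 × E3) IM rr (emb p)

lemma DE_apply (p : S2 × S2) (v : EuclideanSpace ℝ (Fin 2) × EuclideanSpace ℝ (Fin 2)) :
    DE p v = (Dι p.1 v.1, Dι p.2 v.2) := by
  have hι : ∀ x : S2, HasMFDerivAt (𝓡 2) 𝓘(ℝ, E3) (Subtype.val : S2 → E3) x (Dι x) := fun x =>
    ((contMDiff_coe_sphere (m := ∞)).mdifferentiable (by simp) x).hasMFDerivAt
  have h1 : HasMFDerivAt IM 𝓘(ℝ, E3) (fun p : S2 × S2 => (p.1 : E3)) p
      ((Dι p.1).comp (ContinuousLinearMap.fst ℝ _ _)) := (hι p.1).comp p (hasMFDerivAt_fst p)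
  have h2 : HasMFDerivAt IM 𝓘(ℝ, E3) (fun p : S2 × S2 => (p.2 : E3)) p
      ((Dι p.2).comp (ContinuousLinearMap.snd ℝ _ _)) := (hι p.2).comp p (hasMFDerivAt_snd p)
  have h3 : HasMFDerivAt IM 𝓘(ℝ, E3 × E3) emb p
      (((Dι p.1).comp (ContinuousLinearMap.fst ℝ _ _)).prod
        ((Dι p.2).comp (ContinuousLinearMap.snd ℝ _ _))) :=
    ⟨h1.1.prodMk h2.1, h1.2.prodMk h2.2⟩
  have h4 : DE p = _ := h3.mfderiv
  rw [h4]
  rfl

lemma DR_DE (p : S2 × S2) (v : EuclideanSpace ℝ (Fin 2) × EuclideanSpace ℝ (Fin 2)) :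
    DR p (DE p v) = v := by
  have h1 : HasMFDerivAt 𝓘(ℝ, E3 × E3) IM rr (emb p) (DR p) :=
    ((contMDiffAt_rr p).mdifferentiableAt (by simp)).hasMFDerivAt
  have h2 : HasMFDerivAt IM 𝓘(ℝ, E3 × E3) emb p (DE p) :=
    (contMDiff_emb.mdifferentiable (by simp) p).hasMFDerivAt
  have h3 := h1.comp p h2
  have h4 : rr ∘ emb = id := funext rr_emb
  rw [h4] at h3
  have h5 := hasMFDerivAt_unique h3 (hasMFDerivAt_id p)
  exact congrArg (fun L : EuclideanSpace ℝ (Fin 2) × EuclideanSpace ℝ (Fin 2) →L[ℝ]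
    EuclideanSpace ℝ (Fin 2) × EuclideanSpace ℝ (Fin 2) => L v) h5

lemma range_Dι (x : S2) : (Dι x).range = (ℝ ∙ (x : E3))ᗮ := range_mvfderiv_subtypeVal x

lemma inner_Dι (x : S2) (v : EuclideanSpace ℝ (Fin 2)) : ⟪(x : E3), Dι x v⟫ = 0 := by
  have h : Dι x v ∈ (Dι x).range := ⟨v, rfl⟩
  rw [range_Dι] at h
  exact Submodule.mem_orthogonal_singleton_iff_inner_right.1 h

lemma exists_Dι (x : S2) (w : E3) (h : ⟪(x : E3), w⟫ = 0) : ∃ v, Dι x v = w := by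
  have h' : w ∈ (Dι x).range := by
    rw [range_Dι]
    exact Submodule.mem_orthogonal_singleton_iff_inner_right.2 h
  exact h'

end Pool.Agent.Helper82.AC
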