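import Pool.Agent.Helper82.AC.Ambient
import Pool.Agent.Helper82.AC.Pullback

/-!
# The product symplectic form on the product of two spheres
-/

open scoped Manifold ContDiff Topology RealInnerProductSpace
open Set Metric Module

noncomputable section

namespace Pool.Agent.Helper82.AC

attribute [local instance] fact3

/-- The determinant. -/
def det3 (x v w : E3) : ℝ :=
  x 0 * (v 1 * w 2 - v 2 * w 1) + x 1 * (v 2 * w 0 - v 0 * w 2) + x 2 * (v 0 * w 1 - v 1 * w 0)

/-- The ambient form as a trilinear map. -/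
def om (p v w : E3 × E3) : ℝ := det3 p.1 v.1 w.1 + det3 p.2 v.2 w.2

/-- The ambient form as a continuous trilinear map. -/
def OmL : E3 × E3 →L[ℝ] E3 × E3 →L[ℝ] E3 × E3 →L[ℝ] ℝ :=
  LinearMap.toContinuousLinearMap
    { toFun := fun p => LinearMap.toContinuousLinearMap
        { toFun := fun v => LinearMap.toContinuousLinearMap
            { toFun := fun w => om p v w
              map_add' := by intro a b; simp [om, det3]; ring
              map_smul' := by intro a b; simp [om, det3]; ring }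
          map_add' := by intro a b; ext w <;> simp [om, det3] <;> ring
          map_smul' := by intro a b; ext w <;> simp [om, det3] <;> ring }
      map_add' := by intro a b; ext v w <;> simp [om, det3] <;> ring
      map_smul' := by intro a b; ext v w <;> simp [om, det3] <;> ring }

lemma OmL_apply (p v w : E3 × E3) : OmL p v w = om p v w := rfl

lemma om_swap (p v w : E3 × E3) : om p v w = - om p w v := by
  simp [om, det3]; ring

/-- The determinant of three vectors in a plane vanishes. -/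
lemma det3_plane (x : S2) (a b c : E3) (ha : ⟪(x : E3), a⟫ = 0) (hb : ⟪(x : E3), b⟫ = 0)
    (hc : ⟪(x : E3), c⟫ = 0) : det3 a b c = 0 := by
  have hx := sphere_eq x
  rw [inner3] at ha hb hc
  linear_combination (norm := (simp only [det3]; ring)) (det3 x b c) * ha + (det3 x c a) * hb + (det3 x a b) * hc
    - (det3 a b c) * hx

/-- The coordinate expression of the embedding in the chart at `x₀`. -/
def Fch (x₀ : S2 × S2) (y : EuclideanSpace ℝ (Fin 2) × EuclideanSpace ℝ (Fin 2)) : E3 × E3 :=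
  emb ((extChartAt IM x₀).symm y)

lemma isOpen_target (x₀ : S2 × S2) : IsOpen (extChartAt IM x₀).target :=
  isOpen_extChartAt_target x₀

lemma contDiffOn_Fch (x₀ : S2 × S2) : ContDiffOn ℝ ∞ (Fch x₀) (extChartAt IM x₀).target := by
  have h : ContMDiffOn 𝓘(ℝ, EuclideanSpace ℝ (Fin 2) × EuclideanSpace ℝ (Fin 2)) 𝓘(ℝ, E3 × E3) ∞
      (Fch x₀) (extChartAt IM x₀).target :=
    contMDiff_emb.comp_contMDiffOn (contMDiffOn_extChartAt_symm (n := ∞) x₀)
  exact h.contDiffOn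

/-- The value of the symplectic form at a point. -/
def omFun (p : S2 × S2) : EuclideanSpace ℝ (Fin 2) × EuclideanSpace ℝ (Fin 2) →L[ℝ]
    EuclideanSpace ℝ (Fin 2) × EuclideanSpace ℝ (Fin 2) →L[ℝ] ℝ :=
  (OmL (emb p)).bilinearComp (DE p) (DE p)

lemma fderiv_Fch (x₀ : S2 × S2) {y : EuclideanSpace ℝ (Fin 2) × EuclideanSpace ℝ (Fin 2)}
    (hy : y ∈ (extChartAt IM x₀).target) (a : EuclideanSpace ℝ (Fin 2) × EuclideanSpace ℝ (Fin 2)) :
    fderiv ℝ (Fch x₀) y a = DE ((extChartAt IM x₀).symm y)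
      (mfderiv 𝓘(ℝ, EuclideanSpace ℝ (Fin 2) × EuclideanSpace ℝ (Fin 2)) IM
        (extChartAt IM x₀).symm y a) := by
  have h1 : HasMFDerivAt IM 𝓘(ℝ, E3 × E3) emb ((extChartAt IM x₀).symm y)
      (DE ((extChartAt IM x₀).symm y)) :=
    (contMDiff_emb.mdifferentiable (by simp) _).hasMFDerivAt
  have h2 : MDifferentiableAt 𝓘(ℝ, EuclideanSpace ℝ (Fin 2) × EuclideanSpace ℝ (Fin 2)) IM
      (extChartAt IM x₀).symm y :=
    ((contMDiffOn_extChartAt_symm (n := ∞) x₀).contMDiffAt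
      ((isOpen_target x₀).mem_nhds hy)).mdifferentiableAt (by simp)
  have h3 := (h1.comp y h2.hasMFDerivAt).mfderiv
  rw [← mfderiv_eq_fderiv]
  exact congrArg (fun L : EuclideanSpace ℝ (Fin 2) × EuclideanSpace ℝ (Fin 2) →L[ℝ] E3 × E3 => L a)
    h3

lemma chartForm_eq (x₀ : S2 × S2) {y : EuclideanSpace ℝ (Fin 2) × EuclideanSpace ℝ (Fin 2)}
    (hy : y ∈ (extChartAt IM x₀).target) :
    chartForm IM (S2 × S2) omFun x₀ y = pull OmL (Fch x₀) y := by
  refine ContinuousLinearMap.ext fun a => ContinuousLinearMap.ext fun b => ?_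
  change OmL (emb ((extChartAt IM x₀).symm y)) (DE ((extChartAt IM x₀).symm y)
      (mfderiv 𝓘(ℝ, EuclideanSpace ℝ (Fin 2) × EuclideanSpace ℝ (Fin 2)) IM
        (extChartAt IM x₀).symm y a)) (DE ((extChartAt IM x₀).symm y)
      (mfderiv 𝓘(ℝ, EuclideanSpace ℝ (Fin 2) × EuclideanSpace ℝ (Fin 2)) IM
        (extChartAt IM x₀).symm y b)) =
    OmL (Fch x₀ y) (fderiv ℝ (Fch x₀) y a) (fderiv ℝ (Fch x₀) y b)
  rw [fderiv_Fch x₀ hy, fderiv_Fch x₀ hy]
  rfl

lemma omFun_smooth (x₀ : S2 × S2) :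
    ContDiffOn ℝ ∞ (chartForm IM (S2 × S2) omFun x₀) (extChartAt IM x₀).target :=
  (contDiffOn_pull OmL (isOpen_target x₀) (contDiffOn_Fch x₀)).congr fun _ hy => chartForm_eq x₀ hy

lemma omFun_closed (x₀ : S2 × S2) {y : EuclideanSpace ℝ (Fin 2) × EuclideanSpace ℝ (Fin 2)}
    (hy : y ∈ (extChartAt IM x₀).target)
    (a b c : EuclideanSpace ℝ (Fin 2) × EuclideanSpace ℝ (Fin 2)) :
    fderiv ℝ (chartForm IM (S2 × S2) omFun x₀) y a b c
      + fderiv ℝ (chartForm IM (S2 × S2) omFun x₀) y b c a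
      + fderiv ℝ (chartForm IM (S2 × S2) omFun x₀) y c a b = 0 := by
  have hev : chartForm IM (S2 × S2) omFun x₀ =ᶠ[𝓝 y] pull OmL (Fch x₀) := by
    filter_upwards [(isOpen_target x₀).mem_nhds hy] with z hz using chartForm_eq x₀ hz
  rw [hev.fderiv_eq, cyc_pull OmL (fun u v w => by rw [OmL_apply, OmL_apply, om_swap])
    (isOpen_target x₀) (contDiffOn_Fch x₀) hy, fderiv_Fch x₀ hy, fderiv_Fch x₀ hy,
    fderiv_Fch x₀ hy]
  have h0 : ∀ a b c : EuclideanSpace ℝ (Fin 2) × EuclideanSpace ℝ (Fin 2),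
      OmL (DE ((extChartAt IM x₀).symm y) a) (DE ((extChartAt IM x₀).symm y) b)
        (DE ((extChartAt IM x₀).symm y) c) = 0 := by
    intro a b c
    rw [OmL_apply, DE_apply, DE_apply, DE_apply]
    unfold om
    rw [det3_plane _ _ _ _ (inner_Dι _ _) (inner_Dι _ _) (inner_Dι _ _),
      det3_plane _ _ _ _ (inner_Dι _ _) (inner_Dι _ _) (inner_Dι _ _), add_zero]
  rw [h0, h0, h0]
  simp

/-- The standard complex structure of `S² × S²`. -/
def J0 : AlmostComplexStructure IM (S2 × S2) :=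
  mkJ (fun _ => 1) (fun _ => 0) (fun _ => 0) contDiff_const contDiff_const contDiff_const
    (by intro x y; simp)

lemma DE_J0 (p : S2 × S2) (v : EuclideanSpace ℝ (Fin 2) × EuclideanSpace ℝ (Fin 2)) :
    DE p (J0.toFun p v) = (cr p.1 (Dι p.1 v.1), cr p.2 (Dι p.2 v.2)) := by
  change DE p (Jfun (fun _ => 1) (fun _ => 0) (fun _ => 0) p v) = _
  rw [DE_Jfun, DE_apply]
  simp [Aamb, Afst, Asnd, emb]

lemma omFun_apply (p : S2 × S2) (v w : EuclideanSpace ℝ (Fin 2) × EuclideanSpace ℝ (Fin 2)) :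
    omFun p v w = det3 p.1 (Dι p.1 v.1) (Dι p.1 w.1) + det3 p.2 (Dι p.2 v.2) (Dι p.2 w.2) := by
  change OmL (emb p) (DE p v) (DE p w) = _
  rw [OmL_apply, DE_apply, DE_apply]
  rfl

lemma det3_cr (x : S2) (v : E3) (hv : ⟪(x : E3), v⟫ = 0) : det3 x v (cr x v) = ‖v‖ ^ 2 := by
  have hx := sphere_eq x
  rw [← real_inner_self_eq_norm_sq, inner3]
  rw [inner3] at hv
  simp only [det3, cr_zero, cr_one, cr_two]
  linear_combination (v 0 * v 0 + v 1 * v 1 + v 2 * v 2) * hx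
    - ((x : E3) 0 * v 0 + (x : E3) 1 * v 1 + (x : E3) 2 * v 2) * hv

lemma det3_cr_cr (x : S2) (v w : E3) : det3 x (cr x v) (cr x w) = det3 x v w := by
  have hx := sphere_eq x
  simp only [det3, cr_zero, cr_one, cr_two]
  linear_combination ((x : E3) 0 * (v 1 * w 2 - v 2 * w 1) + (x : E3) 1 * (v 2 * w 0 - v 0 * w 2)
    + (x : E3) 2 * (v 0 * w 1 - v 1 * w 0)) * hx

lemma omFun_J0 (p : S2 × S2) (v : EuclideanSpace ℝ (Fin 2) × EuclideanSpace ℝ (Fin 2)) :
    omFun p v (J0.toFun p v) = ‖Dι p.1 v.1‖ ^ 2 + ‖Dι p.2 v.2‖ ^ 2 := by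
  change OmL (emb p) (DE p v) (DE p (J0.toFun p v)) = _
  rw [OmL_apply, DE_J0, DE_apply]
  change det3 p.1 _ (cr p.1 _) + det3 p.2 _ (cr p.2 _) = _
  rw [det3_cr _ _ (inner_Dι _ _), det3_cr _ _ (inner_Dι _ _)]

lemma pos_of_ne_zero (p : S2 × S2) (v : EuclideanSpace ℝ (Fin 2) × EuclideanSpace ℝ (Fin 2))
    (hv : v ≠ 0) : 0 < ‖Dι p.1 v.1‖ ^ 2 + ‖Dι p.2 v.2‖ ^ 2 := by
  by_contra hcon
  have h1 : ‖Dι p.1 v.1‖ = 0 := by nlinarith [sq_nonneg ‖Dι p.1 v.1‖, sq_nonneg ‖Dι p.2 v.2‖]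
  have h2 : ‖Dι p.2 v.2‖ = 0 := by nlinarith [sq_nonneg ‖Dι p.1 v.1‖, sq_nonneg ‖Dι p.2 v.2‖]
  apply hv
  apply DE_injective p
  rw [DE_apply, map_zero]
  exact Prod.ext (norm_eq_zero.1 h1) (norm_eq_zero.1 h2)

/-- The product symplectic form on `S² × S²`. -/
def omega : SymplecticForm IM (S2 × S2) where
  toFun p := omFun p
  alt p v := (omFun_apply p v v).trans (by simp only [det3]; ring)
  nondegenerate p v h := by
    by_contra hv
    exact (pos_of_ne_zero p v hv).ne' ((omFun_J0 p v).symm.trans (h _))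
  smooth := omFun_smooth
  closed x₀ y hy a b c := omFun_closed x₀ hy a b c

lemma compatible_J0 : Compatible omega J0 := by
  constructor
  · intro p v w
    change OmL (emb p) (DE p (J0.toFun p v)) (DE p (J0.toFun p w)) = omFun p v w
    rw [OmL_apply, DE_J0, DE_J0, omFun_apply]
    change det3 p.1 (cr p.1 _) (cr p.1 _) + det3 p.2 (cr p.2 _) (cr p.2 _) = _
    rw [det3_cr_cr, det3_cr_cr]
  · intro p v hv
    change 0 < omFun p v (J0.toFun p v)
    rw [omFun_J0]
    exact pos_of_ne_zero p v hv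

end Pool.Agent.Helper82.AC
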