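import Pool.Agent.Helper82.AC.Const

/-!
# Pseudoholomorphic spheres in the torus are constant
-/

open scoped Manifold ContDiff Topology RealInnerProductSpace
open Set Metric Module

noncomputable section

namespace Pool.Agent.Helper82.AC

attribute [local instance] fact3

/-- The angular form of the pair `(X₀, X₁)`, evaluated at the vector `v`. -/
def EL (X₀ X₁ : ℂ → ℝ) (v z : ℂ) : ℝ := fderiv ℝ X₀ z v * X₁ z - fderiv ℝ X₁ z v * X₀ z

lemma EL_contDiff {X₀ X₁ : ℂ → ℝ} (h₀ : ContDiff ℝ ∞ X₀) (h₁ : ContDiff ℝ ∞ X₁) (v : ℂ) :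
    ContDiff ℝ ∞ (EL X₀ X₁ v) :=
  (((h₀.fderiv_right (m := ∞) (by simp)).clm_apply contDiff_const).mul h₁).sub
    (((h₁.fderiv_right (m := ∞) (by simp)).clm_apply contDiff_const).mul h₀)

lemma EL_fderiv {X₀ X₁ : ℂ → ℝ} (h₀ : ContDiff ℝ ∞ X₀) (h₁ : ContDiff ℝ ∞ X₁) (v z w : ℂ) :
    fderiv ℝ (EL X₀ X₁ v) z w =
      (fderiv ℝ (fderiv ℝ X₀) z w v * X₁ z + fderiv ℝ X₀ z v * fderiv ℝ X₁ z w)
      - (fderiv ℝ (fderiv ℝ X₁) z w v * X₀ z + fderiv ℝ X₁ z v * fderiv ℝ X₀ z w) := by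
  have d₀ := (h₀.differentiable (by simp) z).hasFDerivAt
  have d₁ := (h₁.differentiable (by simp) z).hasFDerivAt
  have e₀ := ((h₀.fderiv_right (m := ∞) (by simp)).differentiable (by simp) z).hasFDerivAt
  have e₁ := ((h₁.fderiv_right (m := ∞) (by simp)).differentiable (by simp) z).hasFDerivAt
  have f₀ := e₀.clm_apply (hasFDerivAt_const v z)
  have f₁ := e₁.clm_apply (hasFDerivAt_const v z)
  have h := ((f₀.mul d₁).sub (f₁.mul d₀)).fderiv
  have e : fderiv ℝ (EL X₀ X₁ v) z = _ := h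
  rw [e]
  simp only [sub_apply, add_apply, smul_apply, ContinuousLinearMap.comp_apply,
    ContinuousLinearMap.flip_apply, zero_apply, map_zero, zero_add, smul_eq_mul]
  ring

lemma EL_curl {X₀ X₁ : ℂ → ℝ} (h₀ : ContDiff ℝ ∞ X₀) (h₁ : ContDiff ℝ ∞ X₁) (z v w : ℂ) :
    fderiv ℝ (EL X₀ X₁ v) z w - fderiv ℝ (EL X₀ X₁ w) z v =
      2 * (fderiv ℝ X₀ z v * fderiv ℝ X₁ z w - fderiv ℝ X₁ z v * fderiv ℝ X₀ z w) := by
  have s₀ : IsSymmSndFDerivAt ℝ X₀ z := h₀.contDiffAt.isSymmSndFDerivAt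
    (by simp; exact WithTop.coe_le_coe.2 le_top)
  have s₁ : IsSymmSndFDerivAt ℝ X₁ z := h₁.contDiffAt.isSymmSndFDerivAt
    (by simp; exact WithTop.coe_le_coe.2 le_top)
  rw [EL_fderiv h₀ h₁, EL_fderiv h₀ h₁, s₀.eq v w, s₁.eq v w]
  ring

/-- Liouville's theorem in the form used here. -/
lemma liouville_pair {P Q : ℂ → ℝ} (hP : ContDiff ℝ ∞ P) (hQ : ContDiff ℝ ∞ Q)
    (h1 : ∀ z, fderiv ℝ P z Complex.I = fderiv ℝ Q z 1)
    (h2 : ∀ z, fderiv ℝ Q z Complex.I = - fderiv ℝ P z 1) (C : ℝ)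
    (hPC : ∀ z : ℂ, 1 ≤ ‖z‖ → |P z| ≤ C / ‖z‖ ^ 2) (hQC : ∀ z : ℂ, 1 ≤ ‖z‖ → |Q z| ≤ C / ‖z‖ ^ 2)
    (z : ℂ) : P z = 0 ∧ Q z = 0 := by
  set G : ℂ → ℂ := fun z => (Q z : ℂ) + (P z : ℂ) * Complex.I with hG
  have hGd : ∀ z, HasFDerivAt G
      (Complex.ofRealCLM.comp (fderiv ℝ Q z) + (Complex.I • Complex.ofRealCLM.comp (fderiv ℝ P z))) z := by
    intro z
    have q := Complex.ofRealCLM.hasFDerivAt.comp z (hQ.differentiable (by simp) z).hasFDerivAt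
    have p := Complex.ofRealCLM.hasFDerivAt.comp z (hP.differentiable (by simp) z).hasFDerivAt
    have p' := p.mul_const' Complex.I
    convert! q.add p' using 1
    ext v
    simp
  have hdiff : Differentiable ℂ G := by
    intro z
    rw [differentiableAt_complex_iff_differentiableAt_real]
    refine ⟨(hGd z).differentiableAt, ?_⟩
    rw [(hGd z).fderiv]
    simp only [add_apply, ContinuousLinearMap.comp_apply, Complex.ofRealCLM_apply, smul_apply,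
      smul_eq_mul, h1, h2]
    push_cast
    ring_nf
    rw [Complex.I_sq]
    ring
  have hlim : Filter.Tendsto G (Filter.cocompact ℂ) (𝓝 0) := by
    rw [tendsto_zero_iff_norm_tendsto_zero]
    have hn : Filter.Tendsto (fun z : ℂ => 2 * C / ‖z‖ ^ 2) (Filter.cocompact ℂ) (𝓝 0) := by
      apply Filter.Tendsto.div_atTop tendsto_const_nhds
      exact (Filter.tendsto_pow_atTop two_ne_zero).comp (tendsto_norm_cocompact_atTop)
    refine squeeze_zero' (Filter.Eventually.of_forall fun z => norm_nonneg _) ?_ hn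
    have hev : ∀ᶠ z : ℂ in Filter.cocompact ℂ, 1 ≤ ‖z‖ :=
      tendsto_norm_cocompact_atTop.eventually_ge_atTop 1
    filter_upwards [hev] with z hz
    have a1 := hPC z hz
    have a2 := hQC z hz
    calc ‖G z‖ ≤ ‖(Q z : ℂ)‖ + ‖(P z : ℂ) * Complex.I‖ := norm_add_le _ _
      _ = |Q z| + |P z| := by
          rw [norm_mul, Complex.norm_I, mul_one, Complex.norm_real, Complex.norm_real]
          rfl
      _ ≤ C / ‖z‖ ^ 2 + C / ‖z‖ ^ 2 := add_le_add a2 a1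
      _ = 2 * C / ‖z‖ ^ 2 := by ring
  have hG0 : G z = 0 := hdiff.apply_eq_of_tendsto_cocompact z hlim
  have hre := congrArg Complex.re hG0
  have him := congrArg Complex.im hG0
  simp [hG] at hre him
  exact ⟨him, hre⟩

/-- The `i`-th coordinate of the first factor. -/
def Xc (f : ℂ → S2 × S2) (i : Fin 3) (z : ℂ) : ℝ := (amb f z).1 i

/-- The `i`-th coordinate of the second factor. -/
def Yc (f : ℂ → S2 × S2) (i : Fin 3) (z : ℂ) : ℝ := (amb f z).2 i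

lemma contDiff_Xc {f : ℂ → S2 × S2} (hf : ContMDiff 𝓘(ℝ, ℂ) IM ∞ f) (i : Fin 3) :
    ContDiff ℝ ∞ (Xc f i) :=
  (contDiff_coord i).comp (contDiff_fst.comp (contDiff_amb hf))

lemma contDiff_Yc {f : ℂ → S2 × S2} (hf : ContMDiff 𝓘(ℝ, ℂ) IM ∞ f) (i : Fin 3) :
    ContDiff ℝ ∞ (Yc f i) :=
  (contDiff_coord i).comp (contDiff_snd.comp (contDiff_amb hf))

lemma fderiv_Xc {f : ℂ → S2 × S2} (hf : ContMDiff 𝓘(ℝ, ℂ) IM ∞ f) (i : Fin 3) (z v : ℂ) :
    fderiv ℝ (Xc f i) z v = (fderiv ℝ (amb f) z v).1 i := by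
  have h2 : HasFDerivAt (amb f) (fderiv ℝ (amb f) z) z :=
    ((contDiff_amb hf).differentiable (by simp) _).hasFDerivAt
  have h3 : HasFDerivAt (Xc f i) ((EuclideanSpace.proj (𝕜 := ℝ) i).comp
      ((ContinuousLinearMap.fst ℝ E3 E3).comp (fderiv ℝ (amb f) z))) z :=
    (EuclideanSpace.proj (𝕜 := ℝ) i).hasFDerivAt.comp z
      ((ContinuousLinearMap.fst ℝ E3 E3).hasFDerivAt.comp z h2)
  rw [h3.fderiv]
  rfl

lemma fderiv_Yc {f : ℂ → S2 × S2} (hf : ContMDiff 𝓘(ℝ, ℂ) IM ∞ f) (i : Fin 3) (z v : ℂ) :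
    fderiv ℝ (Yc f i) z v = (fderiv ℝ (amb f) z v).2 i := by
  have h2 : HasFDerivAt (amb f) (fderiv ℝ (amb f) z) z :=
    ((contDiff_amb hf).differentiable (by simp) _).hasFDerivAt
  have h3 : HasFDerivAt (Yc f i) ((EuclideanSpace.proj (𝕜 := ℝ) i).comp
      ((ContinuousLinearMap.snd ℝ E3 E3).comp (fderiv ℝ (amb f) z))) z :=
    (EuclideanSpace.proj (𝕜 := ℝ) i).hasFDerivAt.comp z
      ((ContinuousLinearMap.snd ℝ E3 E3).hasFDerivAt.comp z h2)
  rw [h3.fderiv]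
  rfl

lemma amb_tangent_fst {f : ℂ → S2 × S2} (hf : ContMDiff 𝓘(ℝ, ℂ) IM ∞ f) (z v : ℂ) :
    Xc f 0 z * fderiv ℝ (Xc f 0) z v + Xc f 1 z * fderiv ℝ (Xc f 1) z v
      + Xc f 2 z * fderiv ℝ (Xc f 2) z v = 0 := by
  rw [fderiv_Xc hf, fderiv_Xc hf, fderiv_Xc hf, fderiv_amb hf, DE_apply]
  have h := inner_Dι (f z).1 ((mfderiv 𝓘(ℝ, ℂ) IM f z v :
    EuclideanSpace ℝ (Fin 2) × EuclideanSpace ℝ (Fin 2)).1)
  rw [inner3] at h
  exact h

lemma amb_tangent_snd {f : ℂ → S2 × S2} (hf : ContMDiff 𝓘(ℝ, ℂ) IM ∞ f) (z v : ℂ) :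
    Yc f 0 z * fderiv ℝ (Yc f 0) z v + Yc f 1 z * fderiv ℝ (Yc f 1) z v
      + Yc f 2 z * fderiv ℝ (Yc f 2) z v = 0 := by
  rw [fderiv_Yc hf, fderiv_Yc hf, fderiv_Yc hf, fderiv_amb hf, DE_apply]
  have h := inner_Dι (f z).2 ((mfderiv 𝓘(ℝ, ℂ) IM f z v :
    EuclideanSpace ℝ (Fin 2) × EuclideanSpace ℝ (Fin 2)).2)
  rw [inner3] at h
  exact h

lemma sphere_Xc (f : ℂ → S2 × S2) (z : ℂ) :
    Xc f 0 z * Xc f 0 z + Xc f 1 z * Xc f 1 z + Xc f 2 z * Xc f 2 z = 1 := sphere_eq (f z).1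

lemma sphere_Yc (f : ℂ → S2 × S2) (z : ℂ) :
    Yc f 0 z * Yc f 0 z + Yc f 1 z * Yc f 1 z + Yc f 2 z * Yc f 2 z = 1 := sphere_eq (f z).2

/-- Second step: if both heights vanish identically the map is constant. -/
lemma torus_const {f f' : ℂ → S2 × S2} (hf : IsHolomorphic J1 f) (hf' : IsHolomorphic J1 f')
    (hff' : ∀ z : ℂ, z ≠ 0 → f z = f' z⁻¹)
    (hz : ∀ z, (amb f z).1 2 = 0 ∧ (amb f z).2 2 = 0) (z w : ℂ) : f z = f w := by
  have X2 : ∀ z, Xc f 2 z = 0 := fun z => (hz z).1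
  have Y2 : ∀ z, Yc f 2 z = 0 := fun z => (hz z).2
  have dX2 : ∀ z v, fderiv ℝ (Xc f 2) z v = 0 := by
    intro z v
    have : Xc f 2 = fun _ => (0 : ℝ) := funext X2
    rw [this]
    simp
  have dY2 : ∀ z v, fderiv ℝ (Yc f 2) z v = 0 := by
    intro z v
    have : Yc f 2 = fun _ => (0 : ℝ) := funext Y2
    rw [this]
    simp
  have cX := contDiff_Xc hf.1
  have cY := contDiff_Yc hf.1
  set P : ℂ → ℝ := EL (Xc f 0) (Xc f 1) 1 with hP
  set Q : ℂ → ℝ := EL (Yc f 0) (Yc f 1) 1 with hQ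
  have sX : ∀ z, Xc f 0 z * Xc f 0 z + Xc f 1 z * Xc f 1 z = 1 := by
    intro z
    have := sphere_Xc f z
    rw [X2] at this
    linarith
  have sY : ∀ z, Yc f 0 z * Yc f 0 z + Yc f 1 z * Yc f 1 z = 1 := by
    intro z
    have := sphere_Yc f z
    rw [Y2] at this
    linarith
  have tX : ∀ z v, Xc f 0 z * fderiv ℝ (Xc f 0) z v + Xc f 1 z * fderiv ℝ (Xc f 1) z v = 0 := by
    intro z v
    have := amb_tangent_fst hf.1 z v
    rw [X2] at this
    linarith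
  have tY : ∀ z v, Yc f 0 z * fderiv ℝ (Yc f 0) z v + Yc f 1 z * fderiv ℝ (Yc f 1) z v = 0 := by
    intro z v
    have := amb_tangent_snd hf.1 z v
    rw [Y2] at this
    linarith
  -- the derivatives are multiples of the angular vector field
  have eX0 : ∀ z v, fderiv ℝ (Xc f 0) z v = EL (Xc f 0) (Xc f 1) v z * Xc f 1 z := by
    intro z v
    simp only [EL]
    linear_combination (-(fderiv ℝ (Xc f 0) z v)) * sX z + (Xc f 0 z) * tX z v
  have eX1 : ∀ z v, fderiv ℝ (Xc f 1) z v = -(EL (Xc f 0) (Xc f 1) v z * Xc f 0 z) := by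
    intro z v
    simp only [EL]
    linear_combination (-(fderiv ℝ (Xc f 1) z v)) * sX z + (Xc f 1 z) * tX z v
  have eY0 : ∀ z v, fderiv ℝ (Yc f 0) z v = EL (Yc f 0) (Yc f 1) v z * Yc f 1 z := by
    intro z v
    simp only [EL]
    linear_combination (-(fderiv ℝ (Yc f 0) z v)) * sY z + (Yc f 0 z) * tY z v
  have eY1 : ∀ z v, fderiv ℝ (Yc f 1) z v = -(EL (Yc f 0) (Yc f 1) v z * Yc f 0 z) := by
    intro z v
    simp only [EL]
    linear_combination (-(fderiv ℝ (Yc f 1) z v)) * sY z + (Yc f 1 z) * tY z v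
  -- the equation of pseudoholomorphic maps
  have c0 : ∀ z, cJ (amb f z) = 0 := fun z =>
    cJ_region (by rw [(hz z).1]; norm_num) (by rw [(hz z).2]; norm_num)
  have s1 : ∀ z, s1J (amb f z) = 1 := fun z => by
    have := s1J_region (p := amb f z) (by rw [(hz z).1]; norm_num) (by rw [(hz z).2]; norm_num)
    rw [(hz z).1] at this
    linarith
  have s2 : ∀ z, s2J (amb f z) = 1 := fun z => by
    have := s2J_region (p := amb f z) (by rw [(hz z).1]; norm_num) (by rw [(hz z).2]; norm_num)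
    rw [(hz z).2] at this
    linarith
  have jX0 : ∀ z, fderiv ℝ (Xc f 0) z Complex.I = Q z * Xc f 1 z := by
    intro z
    rw [fderiv_Xc hf.1, ← mul_one Complex.I, hol_amb hf]
    change Afst cJ s1J _ _ 0 = _
    rw [Afst_zero, c0, s1]
    have h2 := dY2 z 1
    rw [fderiv_Yc hf.1] at h2
    rw [h2]
    simp only [hQ, EL, ell_def, fderiv_Yc hf.1]
    simp only [Xc, Yc]
    ring
  have jX1 : ∀ z, fderiv ℝ (Xc f 1) z Complex.I = -(Q z * Xc f 0 z) := by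
    intro z
    rw [fderiv_Xc hf.1, ← mul_one Complex.I, hol_amb hf]
    change Afst cJ s1J _ _ 1 = _
    rw [Afst_one, c0, s1]
    have h2 := dY2 z 1
    rw [fderiv_Yc hf.1] at h2
    rw [h2]
    simp only [hQ, EL, ell_def, fderiv_Yc hf.1]
    simp only [Xc, Yc]
    ring
  have jY0 : ∀ z, fderiv ℝ (Yc f 0) z Complex.I = -(P z * Yc f 1 z) := by
    intro z
    rw [fderiv_Yc hf.1, ← mul_one Complex.I, hol_amb hf]
    change Asnd cJ s2J _ _ 0 = _
    rw [Asnd_zero, c0, s2]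
    have h2 := dX2 z 1
    rw [fderiv_Xc hf.1] at h2
    rw [h2]
    simp only [hP, EL, ell_def, fderiv_Xc hf.1]
    simp only [Xc, Yc]
    ring
  have jY1 : ∀ z, fderiv ℝ (Yc f 1) z Complex.I = P z * Yc f 0 z := by
    intro z
    rw [fderiv_Yc hf.1, ← mul_one Complex.I, hol_amb hf]
    change Asnd cJ s2J _ _ 1 = _
    rw [Asnd_one, c0, s2]
    have h2 := dX2 z 1
    rw [fderiv_Xc hf.1] at h2
    rw [h2]
    simp only [hP, EL, ell_def, fderiv_Xc hf.1]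
    simp only [Xc, Yc]
    ring
  have eQ : EL (Xc f 0) (Xc f 1) Complex.I = Q := by
    funext z
    have : EL (Xc f 0) (Xc f 1) Complex.I z = fderiv ℝ (Xc f 0) z Complex.I * Xc f 1 z
      - fderiv ℝ (Xc f 1) z Complex.I * Xc f 0 z := rfl
    rw [this, jX0, jX1]
    linear_combination (Q z) * sX z
  have eP : EL (Yc f 0) (Yc f 1) Complex.I = fun z => - P z := by
    funext z
    have : EL (Yc f 0) (Yc f 1) Complex.I z = fderiv ℝ (Yc f 0) z Complex.I * Yc f 1 z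
      - fderiv ℝ (Yc f 1) z Complex.I * Yc f 0 z := rfl
    rw [this, jY0, jY1]
    linear_combination (-(P z)) * sY z
  have hPQ : ∀ z, fderiv ℝ P z Complex.I = fderiv ℝ Q z 1 := by
    intro z
    have h := EL_curl (cX 0) (cX 1) z 1 Complex.I
    rw [eQ, jX0, jX1, eX0 z 1, eX1 z 1] at h
    have h' : fderiv ℝ P z Complex.I - fderiv ℝ Q z 1 = 0 := by
      rw [h]
      ring
    linarith
  have hQP : ∀ z, fderiv ℝ Q z Complex.I = - fderiv ℝ P z 1 := by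
    intro z
    have h := EL_curl (cY 0) (cY 1) z 1 Complex.I
    rw [eP, jY0, jY1, eY0 z 1, eY1 z 1] at h
    have h2 : fderiv ℝ (fun z => - P z) z 1 = - fderiv ℝ P z 1 := by
      rw [fderiv_fun_neg]
      rfl
    rw [h2] at h
    have h' : fderiv ℝ Q z Complex.I - - fderiv ℝ P z 1 = 0 := by
      rw [h]
      ring
    linarith
  obtain ⟨C, hC0, hC⟩ := decay (amb f) (amb f') (contDiff_amb hf'.1)
    (fun z hz => by simp only [amb, hff' z hz])
  have bX : ∀ i z, |Xc f i z| ≤ 1 := by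
    intro i z
    have h := abs_coord_le ((f z).1 : E3) i
    have h' : ‖((f z).1 : E3)‖ = 1 := by simp
    rw [h'] at h
    exact h
  have bY : ∀ i z, |Yc f i z| ≤ 1 := by
    intro i z
    have h := abs_coord_le ((f z).2 : E3) i
    have h' : ‖((f z).2 : E3)‖ = 1 := by simp
    rw [h'] at h
    exact h
  have dX : ∀ i (z : ℂ), 1 ≤ ‖z‖ → |fderiv ℝ (Xc f i) z 1| ≤ C / ‖z‖ ^ 2 := by
    intro i z hz1
    rw [fderiv_Xc hf.1]
    calc |(fderiv ℝ (amb f) z 1).1 i| ≤ ‖(fderiv ℝ (amb f) z 1).1‖ := abs_coord_le _ _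
      _ ≤ ‖fderiv ℝ (amb f) z 1‖ := norm_fst_le _
      _ ≤ ‖fderiv ℝ (amb f) z‖ * ‖(1 : ℂ)‖ := ContinuousLinearMap.le_opNorm _ _
      _ ≤ C / ‖z‖ ^ 2 := by rw [norm_one, mul_one]; exact hC z hz1
  have dY : ∀ i (z : ℂ), 1 ≤ ‖z‖ → |fderiv ℝ (Yc f i) z 1| ≤ C / ‖z‖ ^ 2 := by
    intro i z hz1
    rw [fderiv_Yc hf.1]
    calc |(fderiv ℝ (amb f) z 1).2 i| ≤ ‖(fderiv ℝ (amb f) z 1).2‖ := abs_coord_le _ _
      _ ≤ ‖fderiv ℝ (amb f) z 1‖ := norm_snd_le _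
      _ ≤ ‖fderiv ℝ (amb f) z‖ * ‖(1 : ℂ)‖ := ContinuousLinearMap.le_opNorm _ _
      _ ≤ C / ‖z‖ ^ 2 := by rw [norm_one, mul_one]; exact hC z hz1
  have bnd : ∀ a b x y c : ℝ, |a| ≤ c → |b| ≤ c → |x| ≤ 1 → |y| ≤ 1 → |a * x - b * y| ≤ 2 * c := by
    intro a b x y c ha hb hx hy
    have hc : 0 ≤ c := (abs_nonneg a).trans ha
    calc |a * x - b * y| ≤ |a * x| + |b * y| := abs_sub _ _
      _ = |a| * |x| + |b| * |y| := by rw [abs_mul, abs_mul]
      _ ≤ c * 1 + c * 1 := add_le_add (mul_le_mul ha hx (abs_nonneg _) hc)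
          (mul_le_mul hb hy (abs_nonneg _) hc)
      _ = 2 * c := by ring
  have hPC : ∀ z : ℂ, 1 ≤ ‖z‖ → |P z| ≤ 2 * C / ‖z‖ ^ 2 := by
    intro z hz1
    have := bnd _ _ _ _ _ (dX 0 z hz1) (dX 1 z hz1) (bX 1 z) (bX 0 z)
    rw [mul_div_assoc]
    exact this
  have hQC : ∀ z : ℂ, 1 ≤ ‖z‖ → |Q z| ≤ 2 * C / ‖z‖ ^ 2 := by
    intro z hz1
    have := bnd _ _ _ _ _ (dY 0 z hz1) (dY 1 z hz1) (bY 1 z) (bY 0 z)
    rw [mul_div_assoc]
    exact this
  have hPQ0 := liouville_pair (EL_contDiff (cX 0) (cX 1) 1) (EL_contDiff (cY 0) (cY 1) 1) hPQ hQP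
    (2 * C) hPC hQC
  have P0 : ∀ z, P z = 0 := fun z => (hPQ0 z).1
  have Q0 : ∀ z, Q z = 0 := fun z => (hPQ0 z).2
  -- all the derivatives vanish
  have hlin : ∀ L : ℂ →L[ℝ] ℝ, L 1 = 0 → L Complex.I = 0 → L = 0 := by
    intro L l1 l2
    ext v
    have hv : v = v.re • (1 : ℂ) + v.im • Complex.I := by
      simp [Complex.re_add_im]
    rw [hv, map_add, map_smul, map_smul, l1, l2]
    simp
  have kX0 : ∀ z, fderiv ℝ (Xc f 0) z = 0 := fun z => hlin _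
    (by rw [eX0, show EL (Xc f 0) (Xc f 1) 1 z = P z from rfl, P0, zero_mul])
    (by rw [jX0, Q0, zero_mul])
  have kX1 : ∀ z, fderiv ℝ (Xc f 1) z = 0 := fun z => hlin _
    (by rw [eX1, show EL (Xc f 0) (Xc f 1) 1 z = P z from rfl, P0, zero_mul, neg_zero])
    (by rw [jX1, Q0, zero_mul, neg_zero])
  have kY0 : ∀ z, fderiv ℝ (Yc f 0) z = 0 := fun z => hlin _
    (by rw [eY0, show EL (Yc f 0) (Yc f 1) 1 z = Q z from rfl, Q0, zero_mul])
    (by rw [jY0, P0, zero_mul, neg_zero])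
  have kY1 : ∀ z, fderiv ℝ (Yc f 1) z = 0 := fun z => hlin _
    (by rw [eY1, show EL (Yc f 0) (Yc f 1) 1 z = Q z from rfl, Q0, zero_mul, neg_zero])
    (by rw [jY1, P0, zero_mul])
  have rX0 := is_const_of_fderiv_eq_zero ((cX 0).differentiable (by simp)) kX0 z w
  have rX1 := is_const_of_fderiv_eq_zero ((cX 1).differentiable (by simp)) kX1 z w
  have rY0 := is_const_of_fderiv_eq_zero ((cY 0).differentiable (by simp)) kY0 z w
  have rY1 := is_const_of_fderiv_eq_zero ((cY 1).differentiable (by simp)) kY1 z w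
  have rX2 : Xc f 2 z = Xc f 2 w := by rw [X2, X2]
  have rY2 : Yc f 2 z = Yc f 2 w := by rw [Y2, Y2]
  apply Prod.ext
  · apply Subtype.ext
    ext i
    fin_cases i
    · exact rX0
    · exact rX1
    · exact rX2
  · apply Subtype.ext
    ext i
    fin_cases i
    · exact rY0
    · exact rY1
    · exact rY2

end Pool.Agent.Helper82.AC
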